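import Pool.Agent.V11178.Signed
import Pool.Agent.Helper549.SF02

/-!
# Signed three-fold sums equal to zero: basic facts
-/

open Finset
open scoped Pointwise

namespace Pool.Agent.V11178.Zero3

open Pool.Agent.V11178 Pool.Agent.Helper549 Pool.Agent.Helper549.Kneser

section
variable {G : Type*} [AddCommGroup G]

theorem step (A : Finset G) (c : G → ℤ) (k : ℕ) (h : ∑ a ∈ A, (c a).natAbs = k + 1) :
    ∃ a ∈ A, ∃ e : ℤ, (e = 1 ∨ e = -1) ∧ ∃ c' : G → ℤ, ∑ a ∈ A, (c' a).natAbs = k ∧
      ∑ a ∈ A, c a • a = e • a + ∑ a ∈ A, c' a • a := by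
  classical
  have : ∃ a ∈ A, (c a).natAbs ≠ 0 := by
    by_contra hcon
    push Not at hcon
    rw [Finset.sum_eq_zero hcon] at h
    omega
  obtain ⟨a, ha, hca⟩ := this
  obtain ⟨e, he, hea⟩ : ∃ e : ℤ, (e = 1 ∨ e = -1) ∧ (c a - e).natAbs + 1 = (c a).natAbs := by
    rcases lt_or_ge (c a) 0 with h0 | h0
    · exact ⟨-1, Or.inr rfl, by omega⟩
    · exact ⟨1, Or.inl rfl, by omega⟩
  refine ⟨a, ha, e, he, fun x => if x = a then c a - e else c x, ?_, ?_⟩
  · have h1 := Finset.add_sum_erase A (fun x => (c x).natAbs) ha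
    have h2 := Finset.add_sum_erase A
      (fun x => ((fun x => if x = a then c a - e else c x) x).natAbs) ha
    have h3 : ∑ x ∈ A.erase a, ((fun x => if x = a then c a - e else c x) x).natAbs =
        ∑ x ∈ A.erase a, (c x).natAbs := by
      apply Finset.sum_congr rfl
      intro x hx
      simp only [if_neg (Finset.ne_of_mem_erase hx)]
    rw [h3] at h2
    simp only [if_true] at h2
    beta_reduce at h1 h2 ⊢
    omega
  · have h1 := Finset.add_sum_erase A (fun x => c x • x) ha
    have h2 := Finset.add_sum_erase A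
      (fun x => ((fun x => if x = a then c a - e else c x) x) • x) ha
    have h3 : ∑ x ∈ A.erase a, ((fun x => if x = a then c a - e else c x) x) • x =
        ∑ x ∈ A.erase a, c x • x := by
      apply Finset.sum_congr rfl
      intro x hx
      simp only [if_neg (Finset.ne_of_mem_erase hx)]
    rw [h3] at h2
    simp only [if_true] at h2
    rw [← h1, ← h2, sub_smul]
    abel

theorem zero_mem_three (A : Finset G) : (0 : G) ∈ signedSumset A 3 ↔
    ∃ a ∈ A, ∃ b ∈ A, ∃ c ∈ A, a + b + c = 0 ∨ a + b = c := by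
  classical
  constructor
  · rintro ⟨f, hf1, hf2⟩
    obtain ⟨a, ha, e1, he1, f1, h1, h1'⟩ := step A f 2 hf1
    obtain ⟨b, hb, e2, he2, f2, h2, h2'⟩ := step A f1 1 h1
    obtain ⟨c, hc, e3, he3, f3, h3, h3'⟩ := step A f2 0 h2
    have h4 : ∑ x ∈ A, f3 x • x = 0 := by
      apply Finset.sum_eq_zero
      intro x hx
      have : (f3 x).natAbs = 0 := by
        rw [Finset.sum_eq_zero_iff] at h3
        exact h3 x hx
      rw [Int.natAbs_eq_zero.mp this, zero_smul]
    rw [hf2, h2', h3', h4, add_zero] at h1'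
    rcases he1 with rfl | rfl <;> rcases he2 with rfl | rfl <;> rcases he3 with rfl | rfl <;>
      simp only [one_smul, neg_smul] at h1'
    · exact ⟨a, ha, b, hb, c, hc, Or.inl (by rw [h1']; abel)⟩
    · refine ⟨a, ha, b, hb, c, hc, Or.inr ?_⟩
      have : a + b - c = 0 := by rw [h1']; abel
      exact sub_eq_zero.mp this
    · refine ⟨a, ha, c, hc, b, hb, Or.inr ?_⟩
      have : a + c - b = 0 := by rw [h1']; abel
      exact sub_eq_zero.mp this
    · refine ⟨b, hb, c, hc, a, ha, Or.inr ?_⟩
      have : a - (b + c) = 0 := by rw [h1']; abel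
      exact (sub_eq_zero.mp this).symm
    · refine ⟨b, hb, c, hc, a, ha, Or.inr ?_⟩
      have : b + c - a = 0 := by rw [h1']; abel
      exact sub_eq_zero.mp this
    · refine ⟨a, ha, c, hc, b, hb, Or.inr ?_⟩
      have : b - (a + c) = 0 := by rw [h1']; abel
      exact (sub_eq_zero.mp this).symm
    · refine ⟨a, ha, b, hb, c, hc, Or.inr ?_⟩
      have : c - (a + b) = 0 := by rw [h1']; abel
      exact (sub_eq_zero.mp this).symm
    · refine ⟨a, ha, b, hb, c, hc, Or.inl ?_⟩
      have : -(a + b + c) = 0 := by rw [h1']; abel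
      exact neg_eq_zero.mp this
  · rintro ⟨a, ha, b, hb, c, hc, h⟩
    have key : ∀ (x y z : G) (e : ℤ), x ∈ A → y ∈ A → z ∈ A → (e = 1 ∨ (e = -1 ∧ z ≠ x ∧ z ≠ y)) →
        x + y + e • z = 0 → (0 : G) ∈ signedSumset A 3 := by
      intro x y z e hx hy hz he hs
      refine ⟨fun t => (if t = x then 1 else 0) + (if t = y then 1 else 0) +
        (if t = z then e else 0), ?_, ?_⟩
      · have h1 : ∀ t ∈ A, ((if t = x then (1 : ℤ) else 0) + (if t = y then 1 else 0) +
            (if t = z then e else 0)).natAbs = (if t = x then 1 else 0) +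
            (if t = y then 1 else 0) + (if t = z then 1 else 0) := by
          intro t _
          rcases he with rfl | ⟨rfl, h1, h2⟩
          · split_ifs <;> rfl
          · split_ifs with q1 q2 q3 q3 q2 q3 q3 <;> first | rfl | (exfalso; simp_all)
        rw [Finset.sum_congr rfl h1, Finset.sum_add_distrib, Finset.sum_add_distrib,
          Finset.sum_ite_eq', Finset.sum_ite_eq', Finset.sum_ite_eq', if_pos hx, if_pos hy,
          if_pos hz]
      · have h1 : ∀ t ∈ A, ((if t = x then (1 : ℤ) else 0) + (if t = y then 1 else 0) +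
            (if t = z then e else 0)) • t = (if t = x then t else 0) +
            (if t = y then t else 0) + (if t = z then e • t else 0) := by
          intro t _
          rw [add_smul, add_smul]
          congr 1
          · congr 1
            · split_ifs
              · rw [one_smul]
              · rw [zero_smul]
            · split_ifs
              · rw [one_smul]
              · rw [zero_smul]
          · split_ifs
            · rfl
            · rw [zero_smul]
        rw [Finset.sum_congr rfl h1, Finset.sum_add_distrib, Finset.sum_add_distrib,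
          Finset.sum_ite_eq', Finset.sum_ite_eq', Finset.sum_ite_eq', if_pos hx, if_pos hy,
          if_pos hz, hs]
    rcases h with h | h
    · exact key a b c 1 ha hb hc (Or.inl rfl) (by rw [one_smul]; exact h)
    · by_cases h1 : c = a
      · have hb0 : b = 0 := by rw [h1] at h; exact add_eq_left.mp h
        subst hb0
        exact key 0 0 0 1 hb hb hb (Or.inl rfl) (by simp)
      · by_cases h2 : c = b
        · have ha0 : a = 0 := by rw [h2] at h; exact add_eq_right.mp h
          subst ha0
          exact key 0 0 0 1 ha ha ha (Or.inl rfl) (by simp)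
        · exact key a b c (-1) ha hb hc (Or.inr ⟨rfl, h1, h2⟩) (by
            rw [neg_smul, one_smul, h]; abel)

end

section
variable {G : Type*} [AddCommGroup G] [Fintype G] [DecidableEq G]

/-- `A ∪ -A` is sum-free when `0 ∉ 3± A`. -/
theorem sym_sumfree {A : Finset G} (h : (0 : G) ∉ signedSumset A 3) :
    ∀ x ∈ A ∪ -A, ∀ y ∈ A ∪ -A, x + y ∉ A ∪ -A := by
  rw [zero_mem_three] at h
  push Not at h
  intro x hx y hy hxy
  rw [Finset.mem_union, Finset.mem_neg'] at hx hy hxy
  rcases hx with hx | hx <;> rcases hy with hy | hy <;> rcases hxy with hz | hz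
  · exact (h x hx y hy _ hz).2 rfl
  · exact (h x hx y hy _ hz).1 (by abel)
  · refine (h _ hy _ hz x hx).2 (by abel)
  · refine (h _ hz _ hx _ hy).2 (by abel)
  · refine (h _ hx _ hz y hy).2 (by abel)
  · refine (h _ hz _ hy _ hx).2 (by abel)
  · refine (h _ hx _ hy _ hz).1 (by abel)
  · refine (h _ hx _ hy _ hz).2 (by abel)

/-- Kneser bound for a sum-free set. -/
theorem sumfree_bound (B : Finset G) (hB : ∀ x ∈ B, ∀ y ∈ B, x + y ∉ B) :
    ∃ N h b : ℕ, N * h = Fintype.card G ∧ 0 < h ∧ B.card ≤ b * h ∧ 3 * b ≤ N + 1 := by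
  rcases B.eq_empty_or_nonempty with rfl | hne
  · exact ⟨Fintype.card G, 1, 0, by simp, one_pos, by simp, by simp⟩
  obtain ⟨H, hH⟩ : ∃ H, H = stab (B + B) := ⟨_, rfl⟩
  have hk := kneser' B B hne hne
  rw [← hH] at hk
  have hE : H ≤ stab (B + fs H) := le_stab_add H B
  obtain ⟨b, hb⟩ := card_dvd H (B + fs H) hE
  obtain ⟨N, hN⟩ := card_dvd_univ (G := G) H
  have hpos := fs_card_pos H
  have hsub : B ⊆ B + fs H := by
    intro x hx
    rw [Finset.mem_add]
    exact ⟨x, hx, 0, mem_fs.mpr H.zero_mem, add_zero x⟩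
  have hdisj : Disjoint (B + fs H) (B + B) := by
    rw [Finset.disjoint_left]
    intro x hx hx2
    rw [Finset.mem_add] at hx
    obtain ⟨y, hy, g, hg, rfl⟩ := hx
    rw [mem_fs] at hg
    have h1 : y + g + -g ∈ B + B := by
      rw [hH] at hg
      exact stab_add (neg_mem hg) hx2
    rw [add_neg_cancel_right, Finset.mem_add] at h1
    obtain ⟨u, hu, v, hv, huv⟩ := h1
    exact hB u hu v hv (huv ▸ hy)
  have hcard : (B + fs H).card + (B + B).card ≤ Fintype.card G := by
    rw [← Finset.card_union_of_disjoint hdisj]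
    exact Finset.card_le_univ _
  refine ⟨N, (fs H).card, b, by rw [hN]; ring, hpos, ?_, ?_⟩
  · calc B.card ≤ (B + fs H).card := Finset.card_le_card hsub
      _ = b * (fs H).card := by rw [hb]; ring
  · have h1 : (fs H).card * (3 * b) ≤ (fs H).card * (N + 1) := by
      rw [hb] at hk hcard
      rw [hN] at hcard
      nlinarith
    exact Nat.le_of_mul_le_mul_left h1 hpos

end

end Pool.Agent.V11178.Zero3
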