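import Pool.Agent.V11178.Signed

/-!
# No five-element `4`-independent set in `ℤ_73`

A verified depth-first search with bit masks.
-/

namespace Pool.Agent.V11178.Search73

open Pool.Agent.V11178

/-- Reachable with weight at most `w` from the elements of `A`. -/
def Reach (A : Finset (ZMod 73)) (w : ℕ) (x : ZMod 73) : Prop :=
  ∃ c : ZMod 73 → ℤ, ∑ a ∈ A, (c a).natAbs ≤ w ∧ ∑ a ∈ A, c a • a = x

theorem Reach.insert {A : Finset (ZMod 73)} {w : ℕ} {x b : ZMod 73} (h : Reach A w x)
    (hb : b ∉ A) (l : ℤ) (w' : ℕ) (hw : w + l.natAbs ≤ w') :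
    Reach (insert b A) w' (x + l • b) := by
  obtain ⟨c, h1, h2⟩ := h
  refine ⟨fun g => if g = b then l else c g, ?_, ?_⟩
  · beta_reduce
    rw [Finset.sum_insert hb, if_pos rfl]
    have : ∑ a ∈ A, (if a = b then l else c a).natAbs = ∑ a ∈ A, (c a).natAbs := by
      apply Finset.sum_congr rfl
      intro a ha
      rw [if_neg (ne_of_mem_of_not_mem ha hb)]
    rw [this]
    omega
  · beta_reduce
    rw [Finset.sum_insert hb, if_pos rfl]
    have : ∑ a ∈ A, (if a = b then l else c a) • a = ∑ a ∈ A, c a • a := by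
      apply Finset.sum_congr rfl
      intro a ha
      rw [if_neg (ne_of_mem_of_not_mem ha hb)]
    rw [this, h2]
    abel

/-- A relation of weight between `1` and `4` on `insert b A`. -/
theorem dep_of_reach {A : Finset (ZMod 73)} {w : ℕ} {b : ZMod 73} (l : ℤ)
    (h : Reach A w (l • b)) (hb : b ∉ A) (hl : l ≠ 0) (hw : w + l.natAbs ≤ 4) :
    ¬ TIndep 4 (insert b A) := by
  rw [tIndep_iff]
  push Not
  obtain ⟨c, h1, h2⟩ := h
  have e1 : ∑ a ∈ A, (if a = b then -l else c a).natAbs = ∑ a ∈ A, (c a).natAbs := by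
    apply Finset.sum_congr rfl
    intro a ha
    rw [if_neg (ne_of_mem_of_not_mem ha hb)]
  have e2 : ∑ a ∈ A, (if a = b then -l else c a) • a = ∑ a ∈ A, c a • a := by
    apply Finset.sum_congr rfl
    intro a ha
    rw [if_neg (ne_of_mem_of_not_mem ha hb)]
  refine ⟨fun g => if g = b then -l else c g, ?_, ?_, ?_⟩
  · beta_reduce
    rw [Finset.sum_insert hb, if_pos rfl, e1]
    omega
  · beta_reduce
    rw [Finset.sum_insert hb, if_pos rfl, e1]
    omega
  · beta_reduce
    rw [Finset.sum_insert hb, if_pos rfl, e2, h2, neg_smul]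
    abel

/-- Rotation of a mask of `73` bits by `s < 73`. -/
def rot (m s : ℕ) : ℕ := ((m <<< s) ||| (m >>> (73 - s))) % 2 ^ 73

theorem rot_testBit {m s i : ℕ} (hs : s < 73) (h : (rot m s).testBit i = true) :
    i < 73 ∧ ((s ≤ i ∧ m.testBit (i - s) = true) ∨ (m.testBit (i + 73 - s) = true)) := by
  unfold rot at h
  rw [Nat.testBit_mod_two_pow, Nat.testBit_or, Nat.testBit_shiftLeft, Nat.testBit_shiftRight] at h
  simp only [Bool.and_eq_true, Bool.or_eq_true, decide_eq_true_eq] at h
  refine ⟨h.1, ?_⟩
  rcases h.2 with h2 | h2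
  · left; exact ⟨h2.1, h2.2⟩
  · right
    have : 73 - s + i = i + 73 - s := by omega
    rw [this] at h2
    exact h2

/-- The mask `m` describes residues below `73` that are reachable with weight at most `w`. -/
def Good (A : Finset (ZMod 73)) (w m : ℕ) : Prop :=
  ∀ i : ℕ, m.testBit i = true → i < 73 ∧ Reach A w (i : ZMod 73)

theorem Good.rot {A : Finset (ZMod 73)} {w m b : ℕ} (h : Good A w m)
    (hb : (b : ZMod 73) ∉ A) (l : ℤ) (s : ℕ) (hs : s < 73) (hsl : (s : ZMod 73) = l • (b : ZMod 73))
    (w' : ℕ) (hw : w + l.natAbs ≤ w') :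
    Good (insert (b : ZMod 73) A) w' (Search73.rot m s) := by
  intro i hi
  obtain ⟨h73, h2⟩ := rot_testBit hs hi
  refine ⟨h73, ?_⟩
  rcases h2 with ⟨h2, h3⟩ | h3
  · obtain ⟨-, hr⟩ := h _ h3
    have := hr.insert hb l w' hw
    rw [← hsl] at this
    have e : ((i - s : ℕ) : ZMod 73) + (s : ZMod 73) = (i : ZMod 73) := by
      rw [← Nat.cast_add]; congr 1; omega
    rw [e] at this
    exact this
  · obtain ⟨h4, hr⟩ := h _ h3
    have := hr.insert hb l w' hw
    rw [← hsl] at this
    have e : ((i + 73 - s : ℕ) : ZMod 73) + (s : ZMod 73) = (i : ZMod 73) := by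
      rw [← Nat.cast_add]
      have : i + 73 - s + s = i + 73 := by omega
      rw [this, Nat.cast_add]
      have : ((73 : ℕ) : ZMod 73) = 0 := by decide
      rw [this, add_zero]
    rw [e] at this
    exact this

theorem Good.or {A : Finset (ZMod 73)} {w m m' : ℕ} (h : Good A w m) (h' : Good A w m') :
    Good A w (m ||| m') := by
  intro i hi
  rw [Nat.testBit_or, Bool.or_eq_true] at hi
  rcases hi with hi | hi
  · exact h i hi
  · exact h' i hi

theorem Good.mono {A : Finset (ZMod 73)} {w w' m : ℕ} (h : Good A w m) (hw : w ≤ w')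
    {b : ZMod 73} (hb : b ∉ A) : Good (insert b A) w' m := by
  intro i hi
  obtain ⟨h1, h2⟩ := h i hi
  refine ⟨h1, ?_⟩
  have := h2.insert hb 0 w' (by simpa using hw)
  rwa [zero_smul, add_zero] at this

/-- The search: no way to add `k` elements of the list `l` to the current set without creating a
relation of weight at most `4`. -/
def noExt : ℕ → List ℕ → ℕ → ℕ → ℕ → Bool
  | 0, _, _, _, _ => false
  | _ + 1, [], _, _, _ => true
  | k + 1, x :: l, m1, m2, m3 =>
    (m3.testBit x || m2.testBit (2 * x % 73) || m1.testBit (3 * x % 73) ||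
      noExt k l
        (m1 ||| rot 1 x ||| rot 1 (73 - x))
        (m2 ||| rot m1 x ||| rot m1 (73 - x) ||| rot 1 (2 * x % 73) ||| rot 1 (73 - 2 * x % 73))
        (m3 ||| rot m2 x ||| rot m2 (73 - x) ||| rot m1 (2 * x % 73) ||| rot m1 (73 - 2 * x % 73)
          ||| rot 1 (3 * x % 73) ||| rot 1 (73 - 3 * x % 73))) &&
    noExt (k + 1) l m1 m2 m3

theorem cast_mod73 (a : ℕ) : ((a % 73 : ℕ) : ZMod 73) = (a : ZMod 73) := by
  simp

theorem cast_neg73 (a : ℕ) (ha : a ≤ 73) : ((73 - a : ℕ) : ZMod 73) = -(a : ZMod 73) := by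
  rw [Nat.cast_sub ha]
  have : ((73 : ℕ) : ZMod 73) = 0 := by decide
  rw [this, zero_sub]

theorem good_zero (A : Finset (ZMod 73)) : Good A 0 1 := by
  intro i hi
  have : i = 0 := Nat.testBit_one_eq_true_iff_self_eq_zero.mp hi
  subst this
  exact ⟨by norm_num, fun _ => 0, by simp, by simp⟩

theorem noExt_sound : ∀ (l : List ℕ), (∀ x ∈ l, 0 < x ∧ x ≤ 36) → ∀ (k : ℕ)
    (A : Finset (ZMod 73)) (m1 m2 m3 : ℕ), noExt k l m1 m2 m3 = true →
    Good A 1 m1 → Good A 2 m2 → Good A 3 m3 →
    ∀ S : Finset ℕ, (∀ x ∈ S, x ∈ l) → S.card = k → (∀ x ∈ S, (x : ZMod 73) ∉ A) →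
    ¬ TIndep 4 (A ∪ S.image (fun x : ℕ => (x : ZMod 73))) := by
  intro l
  induction l with
  | nil =>
    intro _ k A m1 m2 m3 h _ _ _ S hS hk _
    cases k with
    | zero => simp [noExt] at h
    | succ k =>
      have : S = ∅ := by
        rw [Finset.eq_empty_iff_forall_notMem]
        intro x hx
        simpa using hS x hx
      rw [this] at hk
      simp at hk
  | cons x l ih =>
    intro hl k A m1 m2 m3 h g1 g2 g3 S hS hk hA
    have hl' : ∀ y ∈ l, 0 < y ∧ y ≤ 36 := fun y hy => hl y (List.mem_cons_of_mem _ hy)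
    cases k with
    | zero => simp [noExt] at h
    | succ k =>
      simp only [noExt, Bool.and_eq_true, Bool.or_eq_true] at h
      obtain ⟨hx1, hx2⟩ := h
      by_cases hxS : x ∈ S
      · have hx0 := hl x List.mem_cons_self
        have hxA := hA x hxS
        have hsub : insert (x : ZMod 73) A ⊆ A ∪ S.image (fun x : ℕ => (x : ZMod 73)) := by
          intro y hy
          rw [Finset.mem_insert] at hy
          rcases hy with rfl | hy
          · exact Finset.mem_union_right _ (Finset.mem_image_of_mem _ hxS)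
          · exact Finset.mem_union_left _ hy
        rcases hx1 with ((hx1 | hx1) | hx1) | hx1
        · intro hind
          refine dep_of_reach (A := A) (w := 3) (b := (x : ZMod 73)) 1 ?_ hxA (by norm_num)
            (by norm_num) (hind.subset hsub)
          rw [one_smul]
          exact (g3 _ hx1).2
        · intro hind
          refine dep_of_reach (A := A) (w := 2) (b := (x : ZMod 73)) 2 ?_ hxA (by norm_num)
            (by norm_num) (hind.subset hsub)
          have := (g2 _ hx1).2
          rw [cast_mod73] at this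
          simpa [zsmul_eq_mul] using this
        · intro hind
          refine dep_of_reach (A := A) (w := 1) (b := (x : ZMod 73)) 3 ?_ hxA (by norm_num)
            (by norm_num) (hind.subset hsub)
          have := (g1 _ hx1).2
          rw [cast_mod73] at this
          simpa [zsmul_eq_mul] using this
        · have hU : A ∪ S.image (fun x : ℕ => (x : ZMod 73)) =
              insert (x : ZMod 73) A ∪ (S.erase x).image (fun x : ℕ => (x : ZMod 73)) := by
            conv_lhs => rw [← Finset.insert_erase hxS]
            rw [Finset.image_insert]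
            ext y
            simp only [Finset.mem_union, Finset.mem_insert]
            tauto
          rw [hU]
          have s1 : ((x : ℕ) : ZMod 73) = (1 : ℤ) • (x : ZMod 73) := by simp
          have s1' : ((73 - x : ℕ) : ZMod 73) = (-1 : ℤ) • (x : ZMod 73) := by
            rw [cast_neg73 x (by omega)]; simp
          have s2 : ((2 * x % 73 : ℕ) : ZMod 73) = (2 : ℤ) • (x : ZMod 73) := by
            rw [cast_mod73]; simp [zsmul_eq_mul]
          have s2' : ((73 - 2 * x % 73 : ℕ) : ZMod 73) = (-2 : ℤ) • (x : ZMod 73) := by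
            rw [cast_neg73 _ (by omega), cast_mod73]; simp [zsmul_eq_mul]
          have s3 : ((3 * x % 73 : ℕ) : ZMod 73) = (3 : ℤ) • (x : ZMod 73) := by
            rw [cast_mod73]; simp [zsmul_eq_mul]
          have s3' : ((73 - 3 * x % 73 : ℕ) : ZMod 73) = (-3 : ℤ) • (x : ZMod 73) := by
            rw [cast_neg73 _ (by omega), cast_mod73]; simp [zsmul_eq_mul]
          refine ih hl' k _ _ _ _ hx1 ?_ ?_ ?_ (S.erase x) ?_ ?_ ?_
          · exact ((g1.mono (w' := 1) (by norm_num) hxA).or
              ((good_zero A).rot hxA 1 x (by omega) s1 1 (by norm_num))).or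
              ((good_zero A).rot hxA (-1) (73 - x) (by omega) s1' 1 (by norm_num))
          · exact ((((g2.mono (w' := 2) (by norm_num) hxA).or
              (g1.rot hxA 1 x (by omega) s1 2 (by norm_num))).or
              (g1.rot hxA (-1) (73 - x) (by omega) s1' 2 (by norm_num))).or
              ((good_zero A).rot hxA 2 (2 * x % 73) (by omega) s2 2 (by norm_num))).or
              ((good_zero A).rot hxA (-2) (73 - 2 * x % 73) (by omega) s2' 2 (by norm_num))
          · exact ((((((g3.mono (w' := 3) (by norm_num) hxA).or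
              (g2.rot hxA 1 x (by omega) s1 3 (by norm_num))).or
              (g2.rot hxA (-1) (73 - x) (by omega) s1' 3 (by norm_num))).or
              (g1.rot hxA 2 (2 * x % 73) (by omega) s2 3 (by norm_num))).or
              (g1.rot hxA (-2) (73 - 2 * x % 73) (by omega) s2' 3 (by norm_num))).or
              ((good_zero A).rot hxA 3 (3 * x % 73) (by omega) s3 3 (by norm_num))).or
              ((good_zero A).rot hxA (-3) (73 - 3 * x % 73) (by omega) s3' 3 (by norm_num))
          · intro y hy
            rw [Finset.mem_erase] at hy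
            have := hS y hy.2
            rw [List.mem_cons] at this
            exact this.resolve_left hy.1
          · rw [Finset.card_erase_of_mem hxS, hk]; rfl
          · intro y hy
            rw [Finset.mem_erase] at hy
            rw [Finset.mem_insert, not_or]
            refine ⟨?_, hA y hy.2⟩
            have hy0 := hl y (hS y hy.2)
            intro he
            rw [ZMod.natCast_eq_natCast_iff'] at he
            rw [Nat.mod_eq_of_lt (by omega), Nat.mod_eq_of_lt (by omega)] at he
            exact hy.1 he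
      · refine ih hl' (k + 1) A m1 m2 m3 hx2 g1 g2 g3 S ?_ hk hA
        intro y hy
        have := hS y hy
        rw [List.mem_cons] at this
        exact this.resolve_left (fun h => hxS (h ▸ hy))

/-- Masks for `A = {1}`. -/
theorem search : noExt 4 (List.range' 2 35) (rot 1 1 ||| rot 1 72 ||| 1)
    (rot 1 1 ||| rot 1 72 ||| 1 ||| rot 1 2 ||| rot 1 71)
    (rot 1 1 ||| rot 1 72 ||| 1 ||| rot 1 2 ||| rot 1 71 ||| rot 1 3 ||| rot 1 70) = true := by
  decide +kernel

end Pool.Agent.V11178.Search73
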