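import Mathlib

/-!
# The Erdős–Heilbronn bound for `A ∔ A` in `ℤ_p`

If `A ⊆ ℤ_p` has `k ≥ 2` elements and `2k - 3 ≤ p`, there are at least `2k - 3` sums of two
distinct elements of `A`.
-/

set_option autoImplicit false

open Finset Polynomial

namespace Pool.Agent.V11178.EH

section field
variable {F : Type*} [Field F] [DecidableEq F]

/-- The leading coefficient of the interpolation polynomial on `A`. -/
noncomputable def ell (A : Finset F) : (F → F) →ₗ[F] F :=
  (Polynomial.lcoeff F (A.card - 1)).comp (Lagrange.interpolate A id)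

theorem ell_pow (A : Finset F) (i : ℕ) (hi : i < A.card) :
    ell A (fun x => x ^ i) = if i + 1 = A.card then 1 else 0 := by
  have h : (X ^ i : F[X]) = Lagrange.interpolate A id (fun x => x ^ i) := by
    apply Lagrange.eq_interpolate_of_eval_eq _ (Set.injOn_id _)
    · rw [degree_X_pow]
      exact_mod_cast hi
    · intro x _
      simp
  unfold ell
  rw [LinearMap.comp_apply, ← h, lcoeff_apply, coeff_X_pow]
  by_cases h1 : i + 1 = A.card
  · rw [if_pos h1, if_pos (by omega)]
  · rw [if_neg h1, if_neg (by omega)]

theorem ell_zero (A : Finset F) (g : F → F) (hg : ∀ x ∈ A, g x = 0) : ell A g = 0 := by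
  unfold ell
  rw [LinearMap.comp_apply]
  have : Lagrange.interpolate A id g = Lagrange.interpolate A id 0 := by
    apply Lagrange.interpolate_eq_of_values_eq_on
    intro x hx
    simpa using hg x hx
  rw [this, map_zero, map_zero]

/-- Products of the two functionals on monomials of total degree at most `|A| + |B| - 2`. -/
theorem ell_mul (A B : Finset F) (u v : ℕ) (h : u + v + 2 ≤ A.card + B.card) :
    ell A (fun x => x ^ u) * ell B (fun y => y ^ v) =
      if u + 1 = A.card ∧ v + 1 = B.card then 1 else 0 := by
  by_cases hu : u < A.card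
  · rw [ell_pow A u hu]
    by_cases hv : v < B.card
    · rw [ell_pow B v hv]
      by_cases h1 : u + 1 = A.card
      · by_cases h2 : v + 1 = B.card
        · simp [h1, h2]
        · simp [h2]
      · simp [h1]
    · rw [if_neg (by omega : ¬ u + 1 = A.card), zero_mul, if_neg (by omega)]
  · rw [ell_pow B v (by omega), if_neg (by omega : ¬ v + 1 = B.card), mul_zero, if_neg (by omega)]

/-- The double functional on `(x - y) (x + y) ^ j`. -/
theorem ell_form (A B : Finset F) (j : ℕ) (h : j + 3 ≤ A.card + B.card) :
    ell A (fun x => ell B (fun y => (x - y) * (x + y) ^ j)) =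
      ∑ i ∈ range (j + 1), (j.choose i : F) *
        ((if i + 1 + 1 = A.card ∧ j - i + 1 = B.card then 1 else 0) -
          (if i + 1 = A.card ∧ j - i + 1 + 1 = B.card then 1 else 0)) := by
  have h1 : ∀ x : F, (fun y => (x - y) * (x + y) ^ j) =
      ∑ i ∈ range (j + 1), (((j.choose i : F) * x ^ (i + 1)) • (fun y : F => y ^ (j - i)) -
        ((j.choose i : F) * x ^ i) • (fun y : F => y ^ (j - i + 1))) := by
    intro x
    funext y
    rw [Finset.sum_apply, add_pow, mul_sum]
    apply sum_congr rfl
    intro i _
    simp only [Pi.sub_apply, Pi.smul_apply, smul_eq_mul]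
    ring
  have h2 : (fun x => ell B (fun y => (x - y) * (x + y) ^ j)) =
      ∑ i ∈ range (j + 1), (((j.choose i : F) * ell B (fun y => y ^ (j - i))) •
        (fun x : F => x ^ (i + 1)) -
        ((j.choose i : F) * ell B (fun y => y ^ (j - i + 1))) • (fun x : F => x ^ i)) := by
    funext x
    rw [h1 x, map_sum, Finset.sum_apply]
    apply sum_congr rfl
    intro i _
    rw [map_sub, map_smul, map_smul]
    simp only [Pi.sub_apply, Pi.smul_apply, smul_eq_mul]
    ring
  rw [h2, map_sum]
  apply sum_congr rfl
  intro i hi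
  rw [mem_range] at hi
  rw [map_sub, map_smul, map_smul, ← ell_mul A B (i + 1) (j - i) (by omega),
    ← ell_mul A B i (j - i + 1) (by omega)]
  simp only [smul_eq_mul]
  ring

end field

/-- The Erdős–Heilbronn bound. -/
theorem erdos_heilbronn {p : ℕ} [Fact p.Prime] (A : Finset (ZMod p)) (n : ℕ)
    (hA : A.card = n + 2) (hp : 2 * n + 1 ≤ p) :
    2 * n + 1 ≤ (((A ×ˢ A).filter (fun q => q.1 ≠ q.2)).image (fun q => q.1 + q.2)).card := by
  by_contra hcon
  push Not at hcon
  obtain ⟨S, hS⟩ : ∃ S, S = ((A ×ˢ A).filter (fun q => q.1 ≠ q.2)).image (fun q => q.1 + q.2) :=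
    ⟨_, rfl⟩
  rw [← hS] at hcon
  obtain ⟨C, hSC, hC⟩ := Finset.exists_superset_card_eq (n := 2 * n) (s := S) (by omega)
    (by rw [ZMod.card]; omega)
  obtain ⟨a0, ha0⟩ : A.Nonempty := by rw [← Finset.card_pos]; omega
  obtain ⟨B, hB⟩ : ∃ B, B = A.erase a0 := ⟨_, rfl⟩
  have hBc : B.card = n + 1 := by rw [hB, card_erase_of_mem ha0, hA]; rfl
  -- the polynomial vanishing on `C`
  obtain ⟨Q, hQ⟩ : ∃ Q : (ZMod p)[X], Q = ∏ c ∈ C, (X - Polynomial.C c) := ⟨_, rfl⟩
  have hmonic : Q.Monic := by rw [hQ]; exact monic_prod_of_monic _ _ (fun c _ => monic_X_sub_C c)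
  have hdeg : Q.natDegree = 2 * n := by
    rw [hQ, natDegree_prod_of_monic _ _ (fun c _ => monic_X_sub_C c)]
    simp [hC]
  have hroot : ∀ c ∈ C, Q.eval c = 0 := by
    intro c hc
    rw [hQ, eval_prod]
    apply prod_eq_zero hc
    simp
  -- the form vanishes on `A × B`
  have hvan : ell A (fun x => ell B (fun y => (x - y) * Q.eval (x + y))) = 0 := by
    apply ell_zero
    intro x hx
    apply ell_zero
    intro y hy
    by_cases hxy : x = y
    · rw [hxy, sub_self, zero_mul]
    · have hmem : x + y ∈ S := by
        rw [hS, mem_image]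
        refine ⟨(x, y), ?_, rfl⟩
        rw [mem_filter, mem_product]
        rw [hB] at hy
        exact ⟨⟨hx, mem_of_mem_erase hy⟩, hxy⟩
      rw [hroot _ (hSC hmem), mul_zero]
  -- expand in powers
  have hexp : ell A (fun x => ell B (fun y => (x - y) * Q.eval (x + y))) =
      ∑ j ∈ range (2 * n + 1), Q.coeff j *
        ell A (fun x => ell B (fun y => (x - y) * (x + y) ^ j)) := by
    have h1 : ∀ x : ZMod p, (fun y => (x - y) * Q.eval (x + y)) =
        ∑ j ∈ range (2 * n + 1), Q.coeff j • (fun y : ZMod p => (x - y) * (x + y) ^ j) := by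
      intro x
      funext y
      rw [Finset.sum_apply, eval_eq_sum_range, hdeg, mul_sum]
      apply sum_congr rfl
      intro j _
      simp only [Pi.smul_apply, smul_eq_mul]
      ring
    have h2 : (fun x => ell B (fun y => (x - y) * Q.eval (x + y))) =
        ∑ j ∈ range (2 * n + 1), Q.coeff j •
          (fun x : ZMod p => ell B (fun y => (x - y) * (x + y) ^ j)) := by
      funext x
      rw [h1 x, map_sum, Finset.sum_apply]
      apply sum_congr rfl
      intro j _
      rw [map_smul]
      rfl
    rw [h2, map_sum]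
    apply sum_congr rfl
    intro j _
    rw [map_smul, smul_eq_mul]
  rw [hexp, Finset.sum_range_succ] at hvan
  have hlow : ∑ j ∈ range (2 * n), Q.coeff j *
      ell A (fun x => ell B (fun y => (x - y) * (x + y) ^ j)) = 0 := by
    apply sum_eq_zero
    intro j hj
    rw [mem_range] at hj
    rw [ell_form A B j (by omega)]
    have : ∑ i ∈ range (j + 1), (j.choose i : ZMod p) *
        ((if i + 1 + 1 = A.card ∧ j - i + 1 = B.card then 1 else 0) -
          (if i + 1 = A.card ∧ j - i + 1 + 1 = B.card then 1 else 0)) = 0 := by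
      apply sum_eq_zero
      intro i hi
      rw [mem_range] at hi
      rw [if_neg (by omega), if_neg (by omega), sub_zero, mul_zero]
    rw [this, mul_zero]
  have hlead : Q.coeff (2 * n) = 1 := by rw [← hdeg]; exact hmonic
  have htop : ell A (fun x => ell B (fun y => (x - y) * (x + y) ^ (2 * n))) =
      ((2 * n).choose n : ZMod p) - ((2 * n).choose (n + 1) : ZMod p) := by
    rw [ell_form A B (2 * n) (by omega)]
    simp only [mul_sub]
    rw [Finset.sum_sub_distrib]
    congr 1
    · rw [Finset.sum_eq_single_of_mem n (by rw [mem_range]; omega)]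
      · rw [if_pos ⟨by omega, by omega⟩, mul_one]
      · intro i hi hin
        rw [mem_range] at hi
        rw [if_neg (by omega), mul_zero]
    · rcases Nat.eq_zero_or_pos n with h0 | hpos
      · subst h0
        simp [hA]
      · rw [Finset.sum_eq_single_of_mem (n + 1) (by rw [mem_range]; omega)]
        · rw [if_pos ⟨by omega, by omega⟩, mul_one]
        · intro i hi hin
          rw [mem_range] at hi
          rw [if_neg (by omega), mul_zero]
  rw [hlow, hlead, htop, zero_add, one_mul] at hvan
  -- the leading coefficient is nonzero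
  have hid : (2 * n).choose (n + 1) * (n + 1) = (2 * n).choose n * n := by
    have := Nat.choose_succ_right_eq (2 * n) n
    rw [this]
    congr 1
    omega
  have hid' : ((2 * n).choose (n + 1) : ZMod p) * ((n : ZMod p) + 1) =
      ((2 * n).choose n : ZMod p) * (n : ZMod p) := by
    exact_mod_cast congrArg (Nat.cast : ℕ → ZMod p) hid
  have hzero : ((2 * n).choose n : ZMod p) = 0 := by
    linear_combination ((n : ZMod p) + 1) * hvan + hid'
  rw [ZMod.natCast_eq_zero_iff] at hzero
  have hdvd : p ∣ (2 * n).factorial := by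
    refine hzero.trans ?_
    rw [← Nat.choose_mul_factorial_mul_factorial (by omega : n ≤ 2 * n), mul_assoc]
    exact Dvd.intro _ rfl
  have := (Nat.Prime.dvd_factorial (Fact.out)).mp hdvd
  omega

end Pool.Agent.V11178.EH
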