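import Pool.Agent.Helper549.SF02

/-!
# Noisy sum-free sets in cyclic groups with interval noise

Basic facts on iterated sumsets, intervals in `ℤ_n` and Kneser's theorem.
-/

set_option autoImplicit false
set_option linter.unusedSectionVars false

open scoped Pointwise
open Finset

namespace Pool.Agent.V11178.Noisy

/-- The `m`-fold sumset `m A = A + ⋯ + A`, with `0 A = {0}`. -/
def msum {G : Type*} [AddCommMonoid G] [DecidableEq G] : ℕ → Finset G → Finset G
  | 0, _ => {0}
  | m + 1, A => msum m A + A

section group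
variable {G : Type*} [AddCommGroup G] [DecidableEq G]

theorem msum_zero (A : Finset G) : msum 0 A = {0} := rfl

theorem msum_succ (m : ℕ) (A : Finset G) : msum (m + 1) A = msum m A + A := rfl

theorem msum_nonempty {A : Finset G} (hA : A.Nonempty) (m : ℕ) : (msum m A).Nonempty := by
  induction m with
  | zero => exact ⟨0, by simp [msum]⟩
  | succ m ih => exact ih.add hA

theorem msum_add (m : ℕ) (A B : Finset G) : msum m (A + B) = msum m A + msum m B := by
  induction m with
  | zero => simp [msum]
  | succ m ih => rw [msum_succ, msum_succ, msum_succ, ih, add_add_add_comm]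

theorem msum_neg (m : ℕ) (A : Finset G) : msum m (-A) = -(msum m A) := by
  induction m with
  | zero => simp [msum]
  | succ m ih => rw [msum_succ, msum_succ, ih, neg_add]

end group

open Pool.Agent.Helper549 Pool.Agent.Helper549.Kneser

section kneser
variable {G : Type*} [AddCommGroup G] [Fintype G] [DecidableEq G]

theorem stab_le_stab_add (A B : Finset G) : stab A ≤ stab (A + B) := by
  intro g hg
  apply mem_stab_of_forall
  intro x hx
  rw [Finset.mem_add] at hx ⊢
  obtain ⟨a, ha, b, hb, rfl⟩ := hx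
  exact ⟨a + g, stab_add hg ha, b, hb, by abel⟩

theorem stab_right_le (A B : Finset G) : stab B ≤ stab (A + B) := by
  rw [add_comm]; exact stab_le_stab_add B A

theorem card_msum_add {D : Finset G} (hD : D.Nonempty) (j : ℕ) : ∀ {Z : Finset G}, Z.Nonempty →
    stab (msum j D + Z) = ⊥ → j * (D.card - 1) + Z.card ≤ (msum j D + Z).card := by
  induction j with
  | zero => intro Z hZ h; simp [msum]
  | succ j ih =>
    intro Z hZ h
    have e : msum (j + 1) D + Z = msum j D + (D + Z) := by rw [msum_succ, add_assoc]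
    rw [e] at h ⊢
    have h1 := ih (hD.add hZ) h
    have h2 : stab (D + Z) = ⊥ := by
      rw [eq_bot_iff, ← h]
      exact stab_right_le _ _
    have h3 := kneser_aperiodic D Z hD hZ h2
    have h4 : 0 < D.card := Finset.card_pos.mpr hD
    rw [Nat.succ_mul]
    omega

end kneser

section cyc
variable {n : ℕ} [NeZero n]

/-- The interval `{a, a + 1, …, a + w}` in `ℤ_n`. -/
def ivl (a : ZMod n) (w : ℕ) : Finset (ZMod n) := (range (w + 1)).image (fun t : ℕ => a + (t : ZMod n))

theorem mem_ivl {a : ZMod n} {w : ℕ} {x : ZMod n} :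
    x ∈ ivl a w ↔ ∃ t : ℕ, t ≤ w ∧ x = a + (t : ZMod n) := by
  unfold ivl
  rw [Finset.mem_image]
  constructor
  · rintro ⟨t, ht, rfl⟩
    exact ⟨t, by rw [mem_range] at ht; omega, rfl⟩
  · rintro ⟨t, ht, rfl⟩
    exact ⟨t, by rw [mem_range]; omega, rfl⟩

theorem ivl_nonempty (a : ZMod n) (w : ℕ) : (ivl a w).Nonempty :=
  ⟨a, mem_ivl.mpr ⟨0, Nat.zero_le _, by simp⟩⟩

theorem ivl_add (a b : ZMod n) (w v : ℕ) : ivl a w + ivl b v = ivl (a + b) (w + v) := by
  ext x
  rw [Finset.mem_add]
  constructor
  · rintro ⟨y, hy, z, hz, rfl⟩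
    obtain ⟨t, ht, rfl⟩ := mem_ivl.mp hy
    obtain ⟨s, hs, rfl⟩ := mem_ivl.mp hz
    exact mem_ivl.mpr ⟨t + s, by omega, by push_cast; ring⟩
  · intro hx
    obtain ⟨t, ht, rfl⟩ := mem_ivl.mp hx
    refine ⟨a + ((min t w : ℕ) : ZMod n), mem_ivl.mpr ⟨min t w, Nat.min_le_right _ _, rfl⟩,
      b + ((t - min t w : ℕ) : ZMod n), mem_ivl.mpr ⟨t - min t w, by omega, rfl⟩, ?_⟩
    have : (t : ZMod n) = ((min t w : ℕ) : ZMod n) + ((t - min t w : ℕ) : ZMod n) := by
      rw [← Nat.cast_add]; congr 1; omega
    rw [this]; ring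

theorem msum_ivl (j : ℕ) (a : ZMod n) (w : ℕ) :
    msum j (ivl a w) = ivl ((j : ZMod n) * a) (j * w) := by
  induction j with
  | zero =>
    rw [msum_zero]
    ext x
    rw [mem_singleton, mem_ivl]
    constructor
    · rintro rfl
      exact ⟨0, by omega, by simp⟩
    · rintro ⟨t, ht, rfl⟩
      have : t = 0 := by omega
      subst this
      simp
  | succ j ih =>
    rw [msum_succ, ih, ivl_add]
    congr 1
    · push_cast; ring
    · ring

theorem eq_univ_of_succ {B : Finset (ZMod n)} (hB : B.Nonempty) (h : ∀ x ∈ B, x + 1 ∈ B) :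
    B = univ := by
  obtain ⟨b, hb⟩ := hB
  have key : ∀ t : ℕ, b + (t : ZMod n) ∈ B := by
    intro t
    induction t with
    | zero => simpa using hb
    | succ t ih =>
      have := h _ ih
      push_cast
      rw [← add_assoc]
      exact this
  rw [eq_univ_iff_forall]
  intro x
  have := key (x - b).val
  rw [ZMod.natCast_zmod_val] at this
  rwa [add_sub_cancel] at this

/-- `B + {0, 1}` -/
theorem add_ivl_one (B : Finset (ZMod n)) : B + ivl 0 1 = B ∪ B.image (fun x => x + 1) := by
  ext x
  rw [Finset.mem_add, Finset.mem_union, Finset.mem_image]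
  constructor
  · rintro ⟨y, hy, z, hz, rfl⟩
    obtain ⟨t, ht, rfl⟩ := mem_ivl.mp hz
    have ht' : t = 0 ∨ t = 1 := by omega
    rcases ht' with rfl | rfl
    · left; simpa using hy
    · right; exact ⟨y, hy, by simp⟩
  · rintro (hx | ⟨y, hy, rfl⟩)
    · exact ⟨x, hx, 0, mem_ivl.mpr ⟨0, by omega, by simp⟩, by simp⟩
    · exact ⟨y, hy, 1, mem_ivl.mpr ⟨1, by omega, by simp⟩, rfl⟩

theorem step_one {B : Finset (ZMod n)} (hB : B.Nonempty) (hU : B + ivl 0 1 ≠ univ) :
    B.card + 1 ≤ (B + ivl 0 1).card := by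
  by_contra hcon
  have h1 : B ⊆ B + ivl 0 1 := by rw [add_ivl_one]; exact subset_union_left
  have h2 : B + ivl 0 1 = B := (Finset.eq_of_subset_of_card_le h1 (by omega)).symm
  apply hU
  rw [h2]
  apply eq_univ_of_succ hB
  intro x hx
  rw [← h2, add_ivl_one, Finset.mem_union]
  right
  exact Finset.mem_image_of_mem _ hx

theorem ivl_subset {a : ZMod n} {w v : ℕ} (h : w ≤ v) : ivl a w ⊆ ivl a v := by
  intro x hx
  obtain ⟨t, ht, rfl⟩ := mem_ivl.mp hx
  exact mem_ivl.mpr ⟨t, by omega, rfl⟩

theorem add_ivl_card {B : Finset (ZMod n)} (hB : B.Nonempty) (j : ℕ)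
    (hU : B + ivl 0 j ≠ univ) : B.card + j ≤ (B + ivl 0 j).card := by
  induction j with
  | zero =>
    have : B ⊆ B + ivl 0 0 := by
      intro x hx
      rw [Finset.mem_add]
      exact ⟨x, hx, 0, mem_ivl.mpr ⟨0, by omega, by simp⟩, by simp⟩
    simpa using Finset.card_le_card this
  | succ j ih =>
    have e : B + ivl 0 (j + 1) = (B + ivl 0 j) + ivl 0 1 := by
      rw [add_assoc, ivl_add, add_zero]
    have h1 : B + ivl 0 j ≠ univ := by
      intro h
      apply hU
      rw [e, h]
      apply Finset.eq_univ_of_forall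
      intro x
      rw [Finset.mem_add]
      exact ⟨x, mem_univ x, 0, mem_ivl.mpr ⟨0, by omega, by simp⟩, by simp⟩
    have h2 := ih h1
    rw [e] at hU ⊢
    have h3 := step_one (hB.add (ivl_nonempty 0 j)) hU
    omega

/-- A set that grows by at most one under `+ {0, 1}` is an interval. -/
theorem interval_of_card {B : Finset (ZMod n)} (hB : B.Nonempty) (hU : B + ivl 0 1 ≠ univ)
    (hc : (B + ivl 0 1).card ≤ B.card + 1) : ∃ a : ZMod n, B = ivl a (B.card - 1) := by
  rw [add_ivl_one] at hc hU
  have hE : (B.image (fun x => x + 1) \ B).card ≤ 1 := by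
    have h1 := Finset.card_union_of_disjoint (s := B) (t := B.image (fun x => x + 1) \ B)
      Finset.disjoint_sdiff
    rw [Finset.union_sdiff_self_eq_union] at h1
    omega
  -- the last element
  obtain ⟨b, hb, hb1⟩ : ∃ b ∈ B, b + 1 ∉ B := by
    by_contra hcon
    push Not at hcon
    have := eq_univ_of_succ hB hcon
    apply hU
    rw [this]
    simp
  have hlast : ∀ x ∈ B, x ≠ b → x + 1 ∈ B := by
    intro x hx hxb
    by_contra hx1
    have m1 : x + 1 ∈ B.image (fun x => x + 1) \ B := by
      rw [Finset.mem_sdiff]; exact ⟨Finset.mem_image_of_mem _ hx, hx1⟩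
    have m2 : b + 1 ∈ B.image (fun x => x + 1) \ B := by
      rw [Finset.mem_sdiff]; exact ⟨Finset.mem_image_of_mem _ hb, hb1⟩
    have := Finset.card_le_one.mp hE _ m1 _ m2
    exact hxb (add_right_cancel this)
  -- going from y up to b
  have hup : ∀ j : ℕ, j < n → b - (j : ZMod n) ∈ B → ∀ i : ℕ, i ≤ j → b - (i : ZMod n) ∈ B := by
    intro j
    induction j with
    | zero =>
      intro _ _ i hi
      have : i = 0 := by omega
      subst this
      simpa using hb
    | succ j ih =>
      intro hj hjB i hi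
      rcases Nat.lt_or_ge i (j + 1) with h | h
      · apply ih (by omega) _ i (by omega)
        have hne : b - ((j + 1 : ℕ) : ZMod n) ≠ b := by
          intro h0
          rw [sub_eq_self, ZMod.natCast_eq_zero_iff] at h0
          exact absurd (Nat.le_of_dvd (by omega) h0) (by omega)
        have := hlast _ hjB hne
        have e : b - ((j + 1 : ℕ) : ZMod n) + 1 = b - (j : ZMod n) := by push_cast; ring
        rwa [e] at this
      · have : i = j + 1 := by omega
        rw [this]; exact hjB
  have hinj : ∀ w : ℕ, w < n → ((range (w + 1)).image (fun i : ℕ => b - (i : ZMod n))).card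
      = w + 1 := by
    intro w hw
    rw [card_image_of_injOn, card_range]
    intro x hx y hy hxy
    rw [mem_coe, mem_range] at hx hy
    simp only at hxy
    have h1 : (x : ZMod n) = (y : ZMod n) := by
      have := sub_right_injective hxy
      exact this
    rw [ZMod.natCast_eq_natCast_iff', Nat.mod_eq_of_lt (by omega),
      Nat.mod_eq_of_lt (by omega)] at h1
    exact h1
  have hval : ∀ y ∈ B, (b - y).val < B.card := by
    intro y hy
    have hlt := ZMod.val_lt (b - y)
    have hy' : b - (((b - y).val : ℕ) : ZMod n) ∈ B := by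
      rw [ZMod.natCast_zmod_val]
      simpa using hy
    have hsub : (range ((b - y).val + 1)).image (fun i : ℕ => b - (i : ZMod n)) ⊆ B := by
      intro z hz
      rw [mem_image] at hz
      obtain ⟨i, hi, rfl⟩ := hz
      rw [mem_range] at hi
      exact hup _ hlt hy' i (by omega)
    have := Finset.card_le_card hsub
    rw [hinj _ hlt] at this
    omega
  have hpos : 0 < B.card := Finset.card_pos.mpr hB
  have hsub : B ⊆ ivl (b - ((B.card - 1 : ℕ) : ZMod n)) (B.card - 1) := by
    intro y hy
    have h1 := hval y hy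
    rw [mem_ivl]
    refine ⟨B.card - 1 - (b - y).val, by omega, ?_⟩
    have e : ((B.card - 1 - (b - y).val : ℕ) : ZMod n) =
        ((B.card - 1 : ℕ) : ZMod n) - (b - y) := by
      rw [Nat.cast_sub (by omega : (b - y).val ≤ B.card - 1), ZMod.natCast_zmod_val]
    rw [e]
    ring
  refine ⟨b - ((B.card - 1 : ℕ) : ZMod n), Finset.eq_of_subset_of_card_le hsub ?_⟩
  calc (ivl (b - ((B.card - 1 : ℕ) : ZMod n)) (B.card - 1)).card ≤ (range (B.card - 1 + 1)).card :=
        Finset.card_image_le
    _ = B.card := by rw [card_range]; omega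

end cyc

end Pool.Agent.V11178.Noisy
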