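import Mathlib

/-!
# Two-element signed spanning sets in `ℤ_c × ℤ_{ck}`
-/

set_option autoImplicit false

open Finset

namespace Pool.Agent.V11178.RankTwo

/-- `(x, y)` lies in the lattice of relations between `α` and `β`. -/
def InL {k : ℕ} (α β : ZMod k) (x y : ℤ) : Prop := x • α + y • β = 0

theorem InL.add {k : ℕ} {α β : ZMod k} {x y x' y' : ℤ} (h : InL α β x y) (h' : InL α β x' y') :
    InL α β (x + x') (y + y') := by
  unfold InL at *
  rw [add_smul, add_smul, add_add_add_comm, h, h', add_zero]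

theorem InL.smul {k : ℕ} {α β : ZMod k} {x y : ℤ} (h : InL α β x y) (i : ℤ) :
    InL α β (i * x) (i * y) := by
  unfold InL at *
  rw [mul_smul, mul_smul, ← smul_add, h, smul_zero]

theorem InL.neg {k : ℕ} {α β : ZMod k} {x y : ℤ} (h : InL α β x y) : InL α β (-x) (-y) := by
  have := h.smul (-1)
  simpa using this

/-- The box `[0, a) × [0, b)` covers the plane under the lattice generated by `(a, σ)` and
`(ρ, b)`. -/
theorem box_cover (a b ρ σ : ℤ) (ha : 1 ≤ a) (hρ : 0 ≤ ρ)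
    (hσ : 0 ≤ σ) (hdet : 1 ≤ a * b - ρ * σ) (u v : ℤ) :
    ∃ i j : ℤ, 0 ≤ u - i * a - j * ρ ∧ u - i * a - j * ρ < a ∧
      0 ≤ v - i * σ - j * b ∧ v - i * σ - j * b < b := by
  obtain ⟨s, hs⟩ : ∃ s : ℤ → ℤ, ∀ j, s j = (u - j * ρ) / a * σ + j * b := ⟨_, fun _ => rfl⟩
  have hfl : ∀ j : ℤ, a * ((u - j * ρ) / a) ≤ u - j * ρ ∧ u - j * ρ < a * ((u - j * ρ) / a) + a := by
    intro j
    have h1 := Int.emod_add_mul_ediv (u - j * ρ) a
    have h2 := Int.emod_nonneg (u - j * ρ) (by omega : a ≠ 0)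
    have h3 := Int.emod_lt_of_pos (u - j * ρ) (by omega : 0 < a)
    constructor <;> linarith
  have hlow : ∀ j : ℤ, j * (a * b - ρ * σ) + σ * (u - a) ≤ a * s j := by
    intro j
    rw [hs]
    have h1 := (hfl j).2
    have h2 : σ * (u - j * ρ - a) ≤ σ * (a * ((u - j * ρ) / a)) :=
      mul_le_mul_of_nonneg_left (by linarith) hσ
    nlinarith
  have hup : ∀ j : ℤ, a * s j ≤ j * (a * b - ρ * σ) + σ * u := by
    intro j
    rw [hs]
    have h1 := (hfl j).1
    have h2 : σ * (a * ((u - j * ρ) / a)) ≤ σ * (u - j * ρ) :=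
      mul_le_mul_of_nonneg_left h1 hσ
    nlinarith
  -- the largest `j` with `s j ≤ v`
  have hbdd : ∀ z : ℤ, s z ≤ v → z ≤ |a * v| + |σ * (u - a)| := by
    intro z hz
    have h1 := hlow z
    have h2 : a * s z ≤ a * v := mul_le_mul_of_nonneg_left hz (by omega)
    have h3 : z * (a * b - ρ * σ) ≤ a * v - σ * (u - a) := by linarith
    have h4 := le_abs_self (a * v)
    have h5 := neg_abs_le (σ * (u - a))
    by_contra hcon
    push Not at hcon
    have h6 : 0 ≤ |a * v| := abs_nonneg _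
    have h7 : 0 ≤ |σ * (u - a)| := abs_nonneg _
    have h8 : z ≤ z * (a * b - ρ * σ) := by nlinarith
    linarith
  have hex : ∃ z : ℤ, s z ≤ v := by
    refine ⟨-(|a * v| + |σ * u|), ?_⟩
    have h1 := hup (-(|a * v| + |σ * u|))
    have h4 := neg_abs_le (a * v)
    have h5 := le_abs_self (σ * u)
    have h6 : 0 ≤ |a * v| := abs_nonneg _
    have h7 : 0 ≤ |σ * u| := abs_nonneg _
    have h8 : -(|a * v| + |σ * u|) * (a * b - ρ * σ) ≤ -(|a * v| + |σ * u|) := by nlinarith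
    have h9 : a * s (-(|a * v| + |σ * u|)) ≤ a * v := by linarith
    exact le_of_mul_le_mul_left h9 (by omega)
  obtain ⟨j, hj, hmax⟩ := Int.exists_greatest_of_bdd ⟨_, hbdd⟩ hex
  have hnext : v < s (j + 1) := by
    by_contra hcon
    push Not at hcon
    have := hmax _ hcon
    omega
  have hstep : s (j + 1) ≤ s j + b := by
    rw [hs, hs]
    have h1 : (u - (j + 1) * ρ) / a ≤ (u - j * ρ) / a := by
      apply Int.ediv_le_ediv (by omega)
      nlinarith
    have h2 : (u - (j + 1) * ρ) / a * σ ≤ (u - j * ρ) / a * σ :=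
      mul_le_mul_of_nonneg_right h1 hσ
    linarith
  refine ⟨(u - j * ρ) / a, j, ?_, ?_, ?_, ?_⟩
  · have := (hfl j).1
    linarith
  · have := (hfl j).2
    linarith
  · rw [hs] at hj
    linarith
  · rw [hs j] at hstep
    linarith

/-- The box `[0, T)²` covers all cells of the plane under the lattice. -/
def CovAll {k : ℕ} (α β : ZMod k) (T : ℤ) : Prop :=
  ∀ u v : ℤ, ∃ x y : ℤ, InL α β x y ∧ 0 ≤ u - (x + y) ∧ u - (x + y) < T ∧
    0 ≤ v - (x - y) ∧ v - (x - y) < T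

theorem covAll_of_basis {k : ℕ} {α β : ZMod k} {T x₁ y₁ x₂ y₂ : ℤ} (h₁ : InL α β x₁ y₁)
    (h₂ : InL α β x₂ y₂) (ha : 1 ≤ x₁ + y₁) (hρ : 0 ≤ x₂ + y₂) (hσ : 0 ≤ x₁ - y₁)
    (hdet : 1 ≤ (x₁ + y₁) * (x₂ - y₂) - (x₂ + y₂) * (x₁ - y₁))
    (haT : x₁ + y₁ ≤ T) (hbT : x₂ - y₂ ≤ T) : CovAll α β T := by
  intro u v
  obtain ⟨i, j, e1, e2, e3, e4⟩ := box_cover (x₁ + y₁) (x₂ - y₂) (x₂ + y₂) (x₁ - y₁) ha hρ
    hσ hdet u v
  refine ⟨i * x₁ + j * x₂, i * y₁ + j * y₂, (h₁.smul i).add (h₂.smul j), ?_, ?_, ?_, ?_⟩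
  · have : u - (i * x₁ + j * x₂ + (i * y₁ + j * y₂)) = u - i * (x₁ + y₁) - j * (x₂ + y₂) := by ring
    rw [this]; exact e1
  · have : u - (i * x₁ + j * x₂ + (i * y₁ + j * y₂)) = u - i * (x₁ + y₁) - j * (x₂ + y₂) := by ring
    rw [this]; linarith
  · have : v - (i * x₁ + j * x₂ - (i * y₁ + j * y₂)) = v - i * (x₁ - y₁) - j * (x₂ - y₂) := by ring
    rw [this]; exact e3
  · have : v - (i * x₁ + j * x₂ - (i * y₁ + j * y₂)) = v - i * (x₁ - y₁) - j * (x₂ - y₂) := by ring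
    rw [this]; linarith

/-- The mirror image of `box_cover`. -/
theorem box_cover_neg (a b ρ σ : ℤ) (ha : 1 ≤ a) (hρ : ρ ≤ 0)
    (hσ : σ ≤ 0) (hdet : 1 ≤ a * b - ρ * σ) (u v : ℤ) :
    ∃ i j : ℤ, 0 ≤ u - i * a - j * ρ ∧ u - i * a - j * ρ < a ∧
      0 ≤ v - i * σ - j * b ∧ v - i * σ - j * b < b := by
  obtain ⟨i, j, h1, h2, h3, h4⟩ := box_cover a b (-ρ) (-σ) ha (by omega) (by omega)
    (by linarith) u (b - 1 - v)
  refine ⟨i, -j, ?_, ?_, ?_, ?_⟩ <;> linarith

/-- `a, b` are `s`-spanning in `G`. -/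
def SpanPair {G : Type*} [AddCommGroup G] (s : ℕ) (a b : G) : Prop :=
  ∀ x : G, ∃ l m : ℤ, l.natAbs + m.natAbs ≤ s ∧ l • a + m • b = x

/-- Realisation of a pair of coprime integers by elements of `ℤ_c × ℤ_{ck}`. -/
theorem realize {c k s : ℕ} (α β γ δ : ℤ) (hdet : α * δ - β * γ = 1)
    (hcov : ∀ U V : ℤ, (U - V) % 2 = 0 → ∃ x y : ℤ, (k : ℤ) ∣ α * x + β * y ∧
      -(s : ℤ) ≤ U - c * (x + y) ∧ U - c * (x + y) ≤ s ∧
      -(s : ℤ) ≤ V - c * (x - y) ∧ V - c * (x - y) ≤ s) :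
    ∃ a b : ZMod c × ZMod (c * k), SpanPair s a b := by
  refine ⟨((γ : ZMod c), (α : ZMod (c * k))), ((δ : ZMod c), (β : ZMod (c * k))), ?_⟩
  rintro ⟨g₁, g₂⟩
  obtain ⟨G₁, rfl⟩ := ZMod.intCast_surjective g₁
  obtain ⟨G₂, rfl⟩ := ZMod.intCast_surjective g₂
  obtain ⟨X, hX⟩ : ∃ X : ℤ, X = δ * G₂ - β * G₁ := ⟨_, rfl⟩
  obtain ⟨Y, hY⟩ : ∃ Y : ℤ, Y = α * G₁ - γ * G₂ := ⟨_, rfl⟩
  have h1 : γ * X + δ * Y = G₁ := by
    rw [hX, hY]; linear_combination G₁ * hdet
  have h2 : α * X + β * Y = G₂ := by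
    rw [hX, hY]; linear_combination G₂ * hdet
  obtain ⟨x, y, hk, u1, u2, v1, v2⟩ := hcov (X + Y) (X - Y) (by omega)
  refine ⟨X - c * x, Y - c * y, ?_, ?_⟩
  · have e1 : X + Y - c * (x + y) = (X - c * x) + (Y - c * y) := by ring
    have e2 : X - Y - c * (x - y) = (X - c * x) - (Y - c * y) := by ring
    rw [e1] at u1 u2
    rw [e2] at v1 v2
    generalize X - c * x = p at *
    generalize Y - c * y = q at *
    omega
  · simp only [Prod.smul_mk, Prod.mk_add_mk, Prod.mk.injEq]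
    constructor
    · simp only [zsmul_eq_mul]
      have e3 : (((X - c * x) * γ + (Y - c * y) * δ : ℤ) : ZMod c) = ((G₁ : ℤ) : ZMod c) := by
        rw [ZMod.intCast_eq_intCast_iff_dvd_sub]
        refine ⟨x * γ + y * δ, ?_⟩
        rw [← h1]; ring
      push_cast at e3
      push_cast
      exact e3
    · simp only [zsmul_eq_mul]
      have e3 : (((X - c * x) * α + (Y - c * y) * β : ℤ) : ZMod (c * k)) =
          ((G₂ : ℤ) : ZMod (c * k)) := by
        rw [ZMod.intCast_eq_intCast_iff_dvd_sub]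
        obtain ⟨w, hw⟩ := hk
        refine ⟨w, ?_⟩
        push_cast
        rw [← h2]
        linear_combination (c : ℤ) * hw
      push_cast at e3
      push_cast
      exact e3

theorem realize_all {c k s : ℕ} (hc : 2 ≤ c) (α β γ δ : ℤ) (hdet : α * δ - β * γ = 1)
    (hcov : CovAll (α : ZMod k) (β : ZMod k) (((2 * s + 1) / c : ℕ) : ℤ)) :
    ∃ a b : ZMod c × ZMod (c * k), SpanPair s a b := by
  apply realize α β γ δ hdet
  intro U V _
  obtain ⟨T, hT⟩ : ∃ T : ℤ, T = (((2 * s + 1) / c : ℕ) : ℤ) := ⟨_, rfl⟩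
  have hTc : (c : ℤ) * T ≤ 2 * s + 1 := by
    rw [hT]
    exact_mod_cast Nat.mul_div_le (2 * s + 1) c
  rw [← hT] at hcov
  have hc' : (0 : ℤ) < c := by omega
  obtain ⟨x, y, hL, u1, u2, v1, v2⟩ := hcov ((U + s) / c) ((V + s) / c)
  have hk : (k : ℤ) ∣ α * x + β * y := by
    unfold InL at hL
    rw [← ZMod.intCast_zmod_eq_zero_iff_dvd]
    simp only [zsmul_eq_mul] at hL
    push_cast
    linear_combination hL
  have key : ∀ W w : ℤ, 0 ≤ (W + s) / c - w → (W + s) / c - w < T →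
      -(s : ℤ) ≤ W - c * w ∧ W - c * w ≤ s := by
    intro W w h1 h2
    have h3 := Int.emod_add_mul_ediv (W + s) c
    have h4 := Int.emod_nonneg (W + s) hc'.ne'
    have h5 := Int.emod_lt_of_pos (W + s) hc'
    generalize (W + s) / c = q at *
    generalize (W + s) % c = r at *
    have h6 : 0 ≤ (c : ℤ) * (q - w) := mul_nonneg hc'.le h1
    have h7 : (c : ℤ) * (q - w) ≤ c * (T - 1) := mul_le_mul_of_nonneg_left (by omega) hc'.le
    constructor
    · linarith
    · linarith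
  have k1 := key U (x + y) u1 u2
  have k2 := key V (x - y) v1 v2
  exact ⟨x, y, hk, k1.1, k1.2, k2.1, k2.2⟩

/-! ### Constructions -/

theorem cast_inL {k : ℕ} {α β x y : ℤ} (h : (k : ℤ) ∣ α * x + β * y) :
    InL (α : ZMod k) (β : ZMod k) x y := by
  unfold InL
  rw [← ZMod.intCast_zmod_eq_zero_iff_dvd] at h
  simp only [zsmul_eq_mul]
  push_cast at h
  linear_combination h

/-- The covering lattice coming from an odd `T' = 2r + 1 ≤ T`. -/
theorem cov_odd {k r a T : ℕ} (hk : 1 ≤ k) (ha : 1 ≤ a) (h1 : 2 * k ≤ a * (2 * r + 1))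
    (haT : a ≤ T) (hrT : 2 * r + 1 ≤ T) :
    CovAll ((r : ℤ) : ZMod k) (((r : ℤ) + 1 : ℤ) : ZMod k) (T : ℤ) := by
  have h1' : 2 * (k : ℤ) ≤ a * (2 * r + 1) := by exact_mod_cast h1
  have hk' : (1 : ℤ) ≤ k := by exact_mod_cast hk
  have haT' : (a : ℤ) ≤ T := by exact_mod_cast haT
  have ha' : (1 : ℤ) ≤ a := by exact_mod_cast ha
  have hrT' : 2 * (r : ℤ) + 1 ≤ T := by exact_mod_cast hrT
  apply covAll_of_basis (x₁ := (a : ℤ) * (r + 1) - k) (y₁ := (k : ℤ) - a * r)
    (x₂ := (r : ℤ) + 1) (y₂ := -(r : ℤ))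
  · apply cast_inL
    exact ⟨1, by ring⟩
  · apply cast_inL
    exact ⟨0, by ring⟩
  · linarith
  · linarith
  · linarith
  · have e : ((a : ℤ) * (r + 1) - k + (k - a * r)) * ((r : ℤ) + 1 - -(r : ℤ)) -
      ((r : ℤ) + 1 + -(r : ℤ)) * ((a : ℤ) * (r + 1) - k - (k - a * r)) = 2 * k := by ring
    rw [e]; omega
  · linarith
  · linarith

theorem span_odd {c k s r a : ℕ} (hc : 2 ≤ c) (hk : 1 ≤ k) (ha : 1 ≤ a)
    (h1 : 2 * k ≤ a * (2 * r + 1)) (haT : a ≤ (2 * s + 1) / c) (hrT : 2 * r + 1 ≤ (2 * s + 1) / c) :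
    ∃ a b : ZMod c × ZMod (c * k), SpanPair s a b :=
  realize_all hc (r : ℤ) ((r : ℤ) + 1) (-1) (-1) (by ring) (cov_odd hk ha h1 haT hrT)

theorem cov_even {k N y : ℕ} {α β : ℤ} (hk : 1 ≤ k) (hN : 1 ≤ N) (hkN : k + 2 * y = 2 * N * N)
    (g1 : (k : ℤ) ∣ α * (N + y) + β * (N - y)) (g2 : (k : ℤ) ∣ α * (N + 1) + β * (1 - N)) :
    CovAll (α : ZMod k) (β : ZMod k) ((2 * N : ℕ) : ℤ) := by
  have hk' : (1 : ℤ) ≤ k := by exact_mod_cast hk
  have hN' : (1 : ℤ) ≤ N := by exact_mod_cast hN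
  have hkN' : (k : ℤ) + 2 * y = 2 * N * N := by exact_mod_cast hkN
  have hy' : (0 : ℤ) ≤ y := by positivity
  apply covAll_of_basis (x₁ := (N : ℤ) + y) (y₁ := (N : ℤ) - y)
    (x₂ := (N : ℤ) + 1) (y₂ := 1 - (N : ℤ)) (cast_inL g1) (cast_inL g2)
  · linarith
  · linarith
  · linarith
  · have e : ((N : ℤ) + y + (N - y)) * ((N : ℤ) + 1 - (1 - N)) -
      ((N : ℤ) + 1 + (1 - N)) * ((N : ℤ) + y - (N - y)) = 2 * k := by
      linear_combination -2 * hkN'
    rw [e]; omega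
  · push_cast; linarith
  · push_cast; linarith

theorem span_even {c k s N y : ℕ} (hc : 2 ≤ c) (hk : 1 ≤ k) (hN : 1 ≤ N)
    (hT : (2 * s + 1) / c = 2 * N) (hkN : k + 2 * y = 2 * N * N)
    (hy : N % 2 = 0 ∨ (N % 2 = 1 ∧ y % 2 = 0)) :
    ∃ a b : ZMod c × ZMod (c * k), SpanPair s a b := by
  have hkN' : (k : ℤ) + 2 * y = 2 * N * N := by exact_mod_cast hkN
  rcases hy with h0 | ⟨h1, h2⟩
  · obtain ⟨M, rfl⟩ : ∃ M, N = 2 * M := ⟨N / 2, by omega⟩
    refine realize_all hc (2 * (M : ℤ) - 1) (2 * (M : ℤ) + 1) ((M : ℤ) - 1) M (by ring) ?_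
    rw [hT]
    apply cov_even hk hN hkN
    · refine ⟨1, ?_⟩
      push_cast at hkN' ⊢
      linear_combination -hkN'
    · exact ⟨0, by push_cast; ring⟩
  · obtain ⟨m, hm⟩ : ∃ m : ℤ, m = (N : ℤ) * N - y := ⟨_, rfl⟩
    have hk2 : (k : ℤ) = 2 * m := by rw [hm]; linarith
    have hmodd : m % 2 = 1 := by
      rw [hm, Int.sub_emod, Int.mul_emod]
      have e1 : (N : ℤ) % 2 = 1 := by omega
      have e2 : (y : ℤ) % 2 = 0 := by omega
      rw [e1, e2]
      norm_num
    obtain ⟨M, hM⟩ : ∃ M : ℤ, (N : ℤ) + m = 2 * M := ⟨((N : ℤ) + m) / 2, by omega⟩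
    refine realize_all hc (2 * M - 1) (2 * M + 1) (M - 1) M (by ring) ?_
    rw [hT]
    apply cov_even hk hN hkN
    · refine ⟨(N : ℤ) + 1, ?_⟩
      rw [← hM, hk2, hm]
      ring
    · refine ⟨1, ?_⟩
      rw [← hM, hk2]
      ring

/-- The perfect case. -/
theorem span_perfect {c k s T : ℕ} (hc : 2 ≤ c) (hco : c % 2 = 1) (hTo : T % 2 = 1)
    (hs : 2 * s + 2 = c * (T + 1)) (hk : 2 * k = T * T + 1) :
    ∃ a b : ZMod c × ZMod (c * k), SpanPair s a b := by
  have hk' : 2 * (k : ℤ) = (T : ℤ) * T + 1 := by exact_mod_cast hk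
  have hs' : 2 * (s : ℤ) + 2 = c * ((T : ℤ) + 1) := by exact_mod_cast hs
  obtain ⟨r, hr⟩ : ∃ r : ℕ, T = 2 * r + 1 := ⟨T / 2, by omega⟩
  have hr' : (T : ℤ) = 2 * r + 1 := by exact_mod_cast hr
  have hkr : (k : ℤ) = 2 * r * r + 2 * r + 1 := by rw [hr'] at hk'; linarith
  have hc' : (0 : ℤ) < c := by omega
  -- the lattice vectors
  have l1 : (k : ℤ) ∣ 1 * ((r : ℤ) + 1) + (T : ℤ) * r := ⟨1, by rw [hkr, hr']; ring⟩
  have l2 : (k : ℤ) ∣ 1 * (r : ℤ) + (T : ℤ) * (-(r + 1)) := ⟨-1, by rw [hkr, hr']; ring⟩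
  apply realize 1 (T : ℤ) 0 1 (by ring)
  intro U V hUV
  have key : ∀ W w t : ℤ, 0 ≤ (W + s) / c - w → (W + s) / c - w ≤ t →
      (W + s) % c + c * t ≤ 2 * s → -(s : ℤ) ≤ W - c * w ∧ W - c * w ≤ s := by
    intro W w t h1 h2 h0
    have h3 := Int.emod_add_mul_ediv (W + s) c
    have h4 := Int.emod_nonneg (W + s) hc'.ne'
    generalize (W + s) / c = q at *
    generalize (W + s) % c = r at *
    have h6 : 0 ≤ (c : ℤ) * (q - w) := mul_nonneg hc'.le h1
    have h7 : (c : ℤ) * (q - w) ≤ c * t := mul_le_mul_of_nonneg_left h2 hc'.le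
    constructor
    · linarith
    · linarith
  have hU5 := Int.emod_lt_of_pos (U + s) hc'
  have hV5 := Int.emod_lt_of_pos (V + s) hc'
  -- box `[0, T) × [0, T + 1)`
  obtain ⟨i, j, e1, e2, e3, e4⟩ := box_cover (T : ℤ) (T + 1) (T - 1) 1 (by omega) (by omega)
    (by omega) (by nlinarith) ((U + s) / c) ((V + s) / c)
  by_cases hV : (V + s) % c < c - 1
  · refine ⟨i * (r + 1) + j * (2 * r + 1), i * r + j * (-1), ?_, ?_⟩
    · have : 1 * (i * ((r : ℤ) + 1) + j * (2 * r + 1)) + (T : ℤ) * (i * r + j * (-1)) =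
        i * (1 * ((r : ℤ) + 1) + (T : ℤ) * r) + j * ((2 * r + 1) - T) := by ring
      rw [this, hr']
      have e : (2 * (r : ℤ) + 1) - (2 * r + 1) = 0 := by ring
      rw [e, mul_zero, add_zero, ← hr']
      exact Dvd.dvd.mul_left l1 i
    · have a1 : (U + s) / c - (i * ((r : ℤ) + 1) + j * (2 * r + 1) + (i * r + j * (-1))) =
        (U + s) / c - i * (T : ℤ) - j * (T - 1) := by rw [hr']; ring
      have a2 : (V + s) / c - (i * ((r : ℤ) + 1) + j * (2 * r + 1) - (i * r + j * (-1))) =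
        (V + s) / c - i * 1 - j * (T + 1) := by rw [hr']; ring
      have b1 := key U (i * ((r : ℤ) + 1) + j * (2 * r + 1) + (i * r + j * (-1))) (T - 1)
        (by rw [a1]; exact e1) (by rw [a1]; omega) (by nlinarith)
      have b2 := key V (i * ((r : ℤ) + 1) + j * (2 * r + 1) - (i * r + j * (-1))) T
        (by rw [a2]; exact e3) (by rw [a2]; omega) (by nlinarith)
      exact ⟨b1.1, b1.2, b2.1, b2.2⟩
  · by_cases hU : (U + s) % c < c - 1
    · -- box `[0, T + 1) × [0, T)`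
      obtain ⟨i, j, e1, e2, e3, e4⟩ := box_cover_neg (T + 1 : ℤ) T (-1) (1 - T) (by omega)
        (by omega) (by omega) (by nlinarith) ((U + s) / c) ((V + s) / c)
      refine ⟨i * 1 + j * r, i * T + j * (-(r + 1)), ?_, ?_⟩
      · have : 1 * (i * 1 + j * (r : ℤ)) + (T : ℤ) * (i * T + j * (-(r + 1))) =
          i * (T * T + 1) + j * (1 * (r : ℤ) + (T : ℤ) * (-(r + 1))) := by ring
        rw [this, ← hk']
        exact dvd_add ⟨2 * i, by ring⟩ (Dvd.dvd.mul_left l2 j)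
      · have a1 : (U + s) / c - (i * 1 + j * (r : ℤ) + (i * T + j * (-(r + 1)))) =
          (U + s) / c - i * (T + 1 : ℤ) - j * (-1) := by ring
        have a2 : (V + s) / c - (i * 1 + j * (r : ℤ) - (i * T + j * (-(r + 1)))) =
          (V + s) / c - i * (1 - T) - j * T := by rw [hr']; ring
        have b1 := key U (i * 1 + j * (r : ℤ) + (i * T + j * (-(r + 1)))) T
          (by rw [a1]; exact e1) (by rw [a1]; omega) (by nlinarith)
        have b2 := key V (i * 1 + j * (r : ℤ) - (i * T + j * (-(r + 1)))) (T - 1)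
          (by rw [a2]; exact e3) (by rw [a2]; omega) (by nlinarith)
        exact ⟨b1.1, b1.2, b2.1, b2.2⟩
    · -- the special class
      have hUe : (U + s) % c = c - 1 := by omega
      have hVe : (V + s) % c = c - 1 := by omega
      have hpar : ((U + s) / c - (V + s) / c) % 2 = 0 := by
        have h3 := Int.emod_add_mul_ediv (U + s) c
        have h4 := Int.emod_add_mul_ediv (V + s) c
        rw [hUe] at h3
        rw [hVe] at h4
        have h5 : (c : ℤ) * ((U + s) / c - (V + s) / c) = U - V := by linarith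
        have h6 : ((c : ℤ) * ((U + s) / c - (V + s) / c)) % 2 = 0 := by rw [h5]; exact hUV
        rw [Int.mul_emod] at h6
        have h7 : (c : ℤ) % 2 = 1 := by omega
        rw [h7] at h6
        omega
      have hlin : ∀ i j : ℤ, (k : ℤ) ∣ 1 * (i * ((r : ℤ) + 1) + j * r) +
          (T : ℤ) * (i * r + j * (-(r + 1))) := by
        intro i j
        have : 1 * (i * ((r : ℤ) + 1) + j * r) + (T : ℤ) * (i * r + j * (-(r + 1))) =
          i * (1 * ((r : ℤ) + 1) + (T : ℤ) * r) + j * (1 * (r : ℤ) + (T : ℤ) * (-(r + 1))) := by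
          ring
        rw [this]
        exact dvd_add (Dvd.dvd.mul_left l1 i) (Dvd.dvd.mul_left l2 j)
      have hfin : ∀ i j : ℤ, 0 ≤ (U + s) / c - i * (T : ℤ) + j → (U + s) / c - i * (T : ℤ) + j < T →
          0 ≤ (V + s) / c - i * 1 - j * T → (V + s) / c - i * 1 - j * T < T →
          ∃ x y : ℤ, (k : ℤ) ∣ 1 * x + (T : ℤ) * y ∧
            -(s : ℤ) ≤ U - c * (x + y) ∧ U - c * (x + y) ≤ s ∧
            -(s : ℤ) ≤ V - c * (x - y) ∧ V - c * (x - y) ≤ s := by
        intro i j f1 f2 f3 f4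
        refine ⟨i * ((r : ℤ) + 1) + j * r, i * r + j * (-(r + 1)), hlin i j, ?_⟩
        have a1 : (U + s) / c - (i * ((r : ℤ) + 1) + j * r + (i * r + j * (-(r + 1)))) =
          (U + s) / c - i * (T : ℤ) + j := by rw [hr']; ring
        have a2 : (V + s) / c - (i * ((r : ℤ) + 1) + j * r - (i * r + j * (-(r + 1)))) =
          (V + s) / c - i * 1 - j * T := by rw [hr']; ring
        have b1 := key U (i * ((r : ℤ) + 1) + j * r + (i * r + j * (-(r + 1)))) (T - 1)
          (by rw [a1]; exact f1) (by rw [a1]; linarith) (by rw [hUe]; linarith)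
        have b2 := key V (i * ((r : ℤ) + 1) + j * r - (i * r + j * (-(r + 1)))) (T - 1)
          (by rw [a2]; exact f3) (by rw [a2]; linarith) (by rw [hVe]; linarith)
        exact ⟨b1.1, b1.2, b2.1, b2.2⟩
      -- change of basis: `(T, 1)` and `(T - 1, T + 1) = (T, 1) + (-1, T)`
      by_cases hlast : (V + s) / c - i * 1 - j * (T + 1) < T
      · have q1 : (U + s) / c - (i + j) * (T : ℤ) + j = (U + s) / c - i * T - j * (T - 1) := by ring
        have q2 : (V + s) / c - (i + j) * 1 - j * (T : ℤ) =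
          (V + s) / c - i * 1 - j * (T + 1) := by ring
        apply hfin (i + j) j
        · rw [q1]; exact e1
        · rw [q1]; exact e2
        · rw [q2]; exact e3
        · rw [q2]; exact hlast
      · have hv0 : (V + s) / c - i * 1 - j * ((T : ℤ) + 1) = T := by omega
        -- the first coordinate is odd, hence at most `T - 2`
        have hu2 : (U + s) / c - i * (T : ℤ) - j * (T - 1) ≤ T - 2 := by
          have h8 : (U + s) / c - i * (T : ℤ) - j * (T - 1) =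
            ((U + s) / c - (V + s) / c) + T - 2 * (i * r) + 2 * j := by
            have : (U + s) / c - i * (T : ℤ) - j * (T - 1) =
              ((U + s) / c - (V + s) / c) + ((V + s) / c - i * 1 - j * ((T : ℤ) + 1)) -
                i * (T - 1) + 2 * j := by ring
            rw [this, hv0, hr']; ring
          have h9 : ((U + s) / c - i * (T : ℤ) - j * (T - 1)) % 2 = 1 := by
            rw [h8, hr']
            generalize (U + s) / c - (V + s) / c = D at hpar
            generalize i * (r : ℤ) = w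
            clear * - hpar
            omega
          generalize (U + s) / c - i * (T : ℤ) - j * (T - 1) = D at h9 e2 ⊢
          have hT2 : (T : ℤ) % 2 = 1 := by omega
          clear * - h9 e2 hT2
          omega
        have q1 : (U + s) / c - (i + j) * (T : ℤ) + (j + 1) =
          ((U + s) / c - i * T - j * (T - 1)) + 1 := by ring
        have q2 : (V + s) / c - (i + j) * 1 - (j + 1) * (T : ℤ) =
          ((V + s) / c - i * 1 - j * (T + 1)) - T := by ring
        apply hfin (i + j) (j + 1)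
        · rw [q1]; exact add_nonneg e1 zero_le_one
        · rw [q1]; clear * - hu2; linarith
        · rw [q2, hv0, sub_self]
        · rw [q2, hv0, sub_self]; clear * - hr'; omega

end Pool.Agent.V11178.RankTwo
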