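import Pool.Agent.V11178.RankTwo

/-!
# Two-element signed spanning sets in `ℤ_c × ℤ_{ck}`: necessary conditions
-/

set_option autoImplicit false

open Finset

namespace Pool.Agent.V11178.RankTwo

section nec

variable {c k s : ℕ}

/-- The second coordinate modulo `k`. -/
def second (c k : ℕ) (g : ZMod c × ZMod (c * k)) : ZMod k :=
  ZMod.castHom (Dvd.intro_left c rfl) (ZMod k) g.2

theorem second_comb (a b : ZMod c × ZMod (c * k)) (l m : ℤ) :
    second c k (l • a + m • b) = l • second c k a + m • second c k b := by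
  unfold second
  rw [Prod.snd_add, Prod.smul_snd, Prod.smul_snd, map_add, map_zsmul, map_zsmul]

theorem gen {a b : ZMod c × ZMod (c * k)} (h : SpanPair s a b) (z : ZMod k) :
    ∃ X Y : ℤ, X • second c k a + Y • second c k b = z := by
  obtain ⟨w, hw⟩ := ZMod.intCast_surjective z
  obtain ⟨l, m, -, h2⟩ := h (0, (w : ZMod (c * k)))
  refine ⟨l, m, ?_⟩
  rw [← second_comb, h2]
  unfold second
  simp only [map_intCast]
  exact hw

/-- A relation between `a` and `b` is divisible by `c`. -/
theorem dvd_of_rel (hc : 2 ≤ c) {a b : ZMod c × ZMod (c * k)} (h : SpanPair s a b) {l m : ℤ}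
    (hlm : l • a + m • b = 0) : (c : ℤ) ∣ l ∧ (c : ℤ) ∣ m := by
  have : NeZero c := ⟨by omega⟩
  obtain ⟨f, hf⟩ : ∃ f : ZMod (c * k) →+* ZMod c, f = ZMod.castHom (Dvd.intro k rfl) (ZMod c) :=
    ⟨_, rfl⟩
  obtain ⟨F, hF⟩ : ∃ F : ZMod c × ZMod c → ZMod c × ZMod c,
      ∀ p, F p = (p.1 * a.1 + p.2 * b.1, p.1 * f a.2 + p.2 * f b.2) := ⟨_, fun _ => rfl⟩
  have hFint : ∀ l m : ℤ, F ((l : ZMod c), (m : ZMod c)) = ((l • a + m • b).1, f (l • a + m • b).2) := by
    intro l m
    rw [hF, Prod.fst_add, Prod.snd_add, Prod.smul_fst, Prod.smul_fst, Prod.smul_snd,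
      Prod.smul_snd, map_add, map_zsmul, map_zsmul]
    simp only [zsmul_eq_mul]
  have hsurj : Function.Surjective F := by
    rintro ⟨y1, y2⟩
    obtain ⟨w2, hw2⟩ := ZMod.intCast_surjective y2
    obtain ⟨l', m', -, h2⟩ := h (y1, (w2 : ZMod (c * k)))
    refine ⟨((l' : ZMod c), (m' : ZMod c)), ?_⟩
    rw [hFint, h2]
    simp only [map_intCast]
    rw [hw2]
  have hinj : Function.Injective F := Finite.injective_iff_surjective.mpr hsurj
  have h0 : F ((l : ZMod c), (m : ZMod c)) = F (0, 0) := by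
    rw [hFint, hlm, hF]
    simp
  have h1 := hinj h0
  rw [Prod.mk.injEq, ZMod.intCast_zmod_eq_zero_iff_dvd, ZMod.intCast_zmod_eq_zero_iff_dvd] at h1
  exact h1

/-- Relations divided by `c` are relations modulo `k`. -/
theorem inL_of_rel (hc : 2 ≤ c) (hk : 1 ≤ k) {a b : ZMod c × ZMod (c * k)} {x y : ℤ}
    (hxy : (c * x) • a + (c * y) • b = 0) : InL (second c k a) (second c k b) x y := by
  have : NeZero (c * k) := ⟨by positivity⟩
  obtain ⟨z, hz⟩ : ∃ z : ZMod (c * k), z = x • a.2 + y • b.2 := ⟨_, rfl⟩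
  have h1 : ((c : ℕ) : ZMod (c * k)) * z = 0 := by
    have h2 := congrArg Prod.snd hxy
    rw [Prod.snd_add, Prod.smul_snd, Prod.smul_snd, Prod.snd_zero] at h2
    rw [hz]
    simp only [zsmul_eq_mul] at h2 ⊢
    push_cast at h2
    linear_combination h2
  have h3 : ((c * z.val : ℕ) : ZMod (c * k)) = 0 := by
    rw [Nat.cast_mul, ZMod.natCast_zmod_val]
    exact h1
  rw [ZMod.natCast_eq_zero_iff] at h3
  have h4 : k ∣ z.val := Nat.dvd_of_mul_dvd_mul_left (by omega) h3
  unfold InL
  rw [← second_comb]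
  have h5 : (x • a + y • b).2 = z := by
    rw [hz, Prod.snd_add, Prod.smul_snd, Prod.smul_snd]
  unfold second
  rw [h5, ← ZMod.natCast_zmod_val z, map_natCast, ZMod.natCast_eq_zero_iff]
  exact h4

/-- The covering property of a residue class. -/
theorem cover_class (hc : 2 ≤ c) (hk : 1 ≤ k) {a b : ZMod c × ZMod (c * k)}
    (h : SpanPair s a b) (e f : ℤ)
    (he1 : -(s : ℤ) + (((2 * s + 1) % c : ℕ) : ℤ) ≤ e) (he2 : e ≤ -(s : ℤ) + c - 1)
    (hf1 : -(s : ℤ) + (((2 * s + 1) % c : ℕ) : ℤ) ≤ f) (hf2 : f ≤ -(s : ℤ) + c - 1)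
    (u v : ℤ) (hpar : (e + c * u - (f + c * v)) % 2 = 0) :
    ∃ x y : ℤ, InL (second c k a) (second c k b) x y ∧
      0 ≤ u - (x + y) ∧ u - (x + y) < (((2 * s + 1) / c : ℕ) : ℤ) ∧
      0 ≤ v - (x - y) ∧ v - (x - y) < (((2 * s + 1) / c : ℕ) : ℤ) := by
  obtain ⟨T, hT⟩ : ∃ T : ℤ, T = (((2 * s + 1) / c : ℕ) : ℤ) := ⟨_, rfl⟩
  obtain ⟨ρ, hρ⟩ : ∃ ρ : ℤ, ρ = (((2 * s + 1) % c : ℕ) : ℤ) := ⟨_, rfl⟩
  have hTρ : ρ + c * T = 2 * s + 1 := by
    rw [hρ, hT]
    exact_mod_cast Nat.mod_add_div (2 * s + 1) c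
  rw [← hT]
  rw [← hρ] at he1 hf1
  have hc' : (2 : ℤ) ≤ c := by exact_mod_cast hc
  obtain ⟨X, hX⟩ : ∃ X : ℤ, (e + c * u) + (f + c * v) = 2 * X := ⟨((e + c * u) + (f + c * v)) / 2,
    by omega⟩
  obtain ⟨Y, hY⟩ : ∃ Y : ℤ, (e + c * u) - (f + c * v) = 2 * Y := ⟨((e + c * u) - (f + c * v)) / 2,
    by omega⟩
  obtain ⟨l, m, h1, h2⟩ := h (X • a + Y • b)
  have h3 : (X - l) • a + (Y - m) • b = 0 := by
    rw [sub_smul, sub_smul, sub_add_sub_comm, h2, sub_self]
  obtain ⟨⟨x, hx⟩, ⟨y, hy⟩⟩ := dvd_of_rel hc h h3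
  rw [hx, hy] at h3
  have hL := inL_of_rel hc hk h3
  have key : ∀ W e u w : ℤ, -(s : ℤ) + ρ ≤ e → e ≤ -(s : ℤ) + c - 1 → W = e + c * (u - w) →
      -(s : ℤ) ≤ W → W ≤ s → 0 ≤ u - w ∧ u - w < T := by
    intro W e u w g1 g2 g3 g4 g5
    constructor
    · by_contra hcon
      have : (c : ℤ) * (u - w) ≤ c * (-1) := mul_le_mul_of_nonneg_left (by omega) (by omega)
      linarith
    · by_contra hcon
      have : (c : ℤ) * T ≤ c * (u - w) := mul_le_mul_of_nonneg_left (by omega) (by omega)
      linarith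
  have k1 := key (l + m) e u (x + y) he1 he2 (by linarith) (by omega) (by omega)
  have k2 := key (l - m) f v (x - y) hf1 hf2 (by linarith) (by omega) (by omega)
  exact ⟨x, y, hL, k1.1, k1.2, k2.1, k2.2⟩

end nec

/-! ### Counting -/

section count

variable {k : ℕ}

/-- Even cells covered: the count. -/
theorem even_count [NeZero k] {α β : ZMod k} {T : ℕ}
    (hgen : ∀ z : ZMod k, ∃ X Y : ℤ, X • α + Y • β = z)
    (hcov : ∀ u v : ℤ, (u - v) % 2 = 0 → ∃ x y : ℤ, InL α β x y ∧
      0 ≤ u - (x + y) ∧ u - (x + y) < (T : ℤ) ∧ 0 ≤ v - (x - y) ∧ v - (x - y) < (T : ℤ)) :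
    k ≤ ((range T ×ˢ range T).filter (fun p => (p.1 + p.2) % 2 = 0)).card := by
  have hsurj : ((range T ×ˢ range T).filter (fun p => (p.1 + p.2) % 2 = 0)).image
      (fun p : ℕ × ℕ => (((p.1 : ℤ) + p.2) / 2) • α + (((p.1 : ℤ) - p.2) / 2) • β) =
      (univ : Finset (ZMod k)) := by
    rw [eq_univ_iff_forall]
    intro z
    obtain ⟨X, Y, hXY⟩ := hgen z
    obtain ⟨x, y, hL, u1, u2, v1, v2⟩ := hcov (X + Y) (X - Y) (by omega)
    rw [mem_image]
    refine ⟨((X + Y - (x + y)).toNat, (X - Y - (x - y)).toNat), ?_, ?_⟩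
    · rw [mem_filter, mem_product, mem_range, mem_range]
      refine ⟨⟨by omega, by omega⟩, by simp only; omega⟩
    · simp only
      rw [Int.toNat_of_nonneg u1, Int.toNat_of_nonneg v1]
      have e1 : (X + Y - (x + y) + (X - Y - (x - y))) / 2 = X - x := by omega
      have e2 : (X + Y - (x + y) - (X - Y - (x - y))) / 2 = Y - y := by omega
      rw [e1, e2, sub_smul, sub_smul, sub_add_sub_comm, hXY]
      unfold InL at hL
      rw [hL, sub_zero]
  have h1 := congrArg Finset.card hsurj
  rw [Finset.card_univ, ZMod.card] at h1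
  rw [← h1]
  exact card_image_le

/-- Odd cells covered: the count. -/
theorem odd_count [NeZero k] {α β : ZMod k} {T : ℕ}
    (hgen : ∀ z : ZMod k, ∃ X Y : ℤ, X • α + Y • β = z)
    (hcov : ∀ u v : ℤ, (u - v) % 2 = 1 → ∃ x y : ℤ, InL α β x y ∧
      0 ≤ u - (x + y) ∧ u - (x + y) < (T : ℤ) ∧ 0 ≤ v - (x - y) ∧ v - (x - y) < (T : ℤ)) :
    k ≤ ((range T ×ˢ range T).filter (fun p => (p.1 + p.2) % 2 = 1)).card := by
  have hsurj : ((range T ×ˢ range T).filter (fun p => (p.1 + p.2) % 2 = 1)).image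
      (fun p : ℕ × ℕ => (((p.1 : ℤ) + p.2 + 1) / 2) • α + (((p.1 : ℤ) - p.2 + 1) / 2) • β) =
      (univ : Finset (ZMod k)) := by
    rw [eq_univ_iff_forall]
    intro z
    obtain ⟨X, Y, hXY⟩ := hgen z
    obtain ⟨x, y, hL, u1, u2, v1, v2⟩ := hcov (X + Y - 1) (X - Y) (by omega)
    rw [mem_image]
    refine ⟨((X + Y - 1 - (x + y)).toNat, (X - Y - (x - y)).toNat), ?_, ?_⟩
    · rw [mem_filter, mem_product, mem_range, mem_range]
      refine ⟨⟨by omega, by omega⟩, by simp only; omega⟩
    · simp only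
      rw [Int.toNat_of_nonneg u1, Int.toNat_of_nonneg v1]
      have e1 : (X + Y - 1 - (x + y) + (X - Y - (x - y)) + 1) / 2 = X - x := by omega
      have e2 : (X + Y - 1 - (x + y) - (X - Y - (x - y)) + 1) / 2 = Y - y := by omega
      rw [e1, e2, sub_smul, sub_smul, sub_add_sub_comm, hXY]
      unfold InL at hL
      rw [hL, sub_zero]
  have h1 := congrArg Finset.card hsurj
  rw [Finset.card_univ, ZMod.card] at h1
  rw [← h1]
  exact card_image_le

theorem card_even_odd (T : ℕ) (hT : T % 2 = 1) :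
    2 * ((range T ×ˢ range T).filter (fun p => (p.1 + p.2) % 2 = 0)).card ≤ T * T + 1 := by
  have h : ((range T ×ˢ range T).filter (fun p => (p.1 + p.2) % 2 = 0)).card ≤
      (range ((T * T + 1) / 2)).card := by
    apply card_le_card_of_injOn (fun p => (p.1 * T + p.2) / 2)
    · intro p hp
      rw [mem_coe, mem_filter, mem_product, mem_range, mem_range] at hp
      rw [mem_coe, mem_range]
      have h1 : p.1 * T + T ≤ T * T := by nlinarith
      simp only
      omega
    · intro p hp q hq hpq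
      rw [mem_coe, mem_filter, mem_product, mem_range, mem_range] at hp hq
      simp only at hpq
      have hp2 : (p.1 * T + p.2) % 2 = 0 := by
        rw [Nat.add_mod, Nat.mul_mod, hT]
        omega
      have hq2 : (q.1 * T + q.2) % 2 = 0 := by
        rw [Nat.add_mod, Nat.mul_mod, hT]
        omega
      have h2 : p.1 * T + p.2 = q.1 * T + q.2 := by omega
      have h3 : p.1 = q.1 := by
        rcases Nat.lt_trichotomy p.1 q.1 with h4 | h4 | h4
        · exfalso
          have : p.1 * T + T ≤ q.1 * T := by nlinarith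
          omega
        · exact h4
        · exfalso
          have : q.1 * T + T ≤ p.1 * T := by nlinarith
          omega
      rw [h3] at h2
      exact Prod.ext h3 (by omega)
  rw [card_range] at h
  omega

theorem card_odd_odd (T : ℕ) (hT : T % 2 = 1) :
    2 * ((range T ×ˢ range T).filter (fun p => (p.1 + p.2) % 2 = 1)).card + 1 ≤ T * T := by
  have h : ((range T ×ˢ range T).filter (fun p => (p.1 + p.2) % 2 = 1)).card ≤
      (range ((T * T) / 2)).card := by
    apply card_le_card_of_injOn (fun p => (p.1 * T + p.2) / 2)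
    · intro p hp
      rw [mem_coe, mem_filter, mem_product, mem_range, mem_range] at hp
      rw [mem_coe, mem_range]
      have h1 : p.1 * T + T ≤ T * T := by nlinarith
      have hp2 : (p.1 * T + p.2) % 2 = 1 := by
        rw [Nat.add_mod, Nat.mul_mod, hT]
        omega
      simp only
      omega
    · intro p hp q hq hpq
      rw [mem_coe, mem_filter, mem_product, mem_range, mem_range] at hp hq
      simp only at hpq
      have hp2 : (p.1 * T + p.2) % 2 = 1 := by
        rw [Nat.add_mod, Nat.mul_mod, hT]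
        omega
      have hq2 : (q.1 * T + q.2) % 2 = 1 := by
        rw [Nat.add_mod, Nat.mul_mod, hT]
        omega
      have h2 : p.1 * T + p.2 = q.1 * T + q.2 := by omega
      have h3 : p.1 = q.1 := by
        rcases Nat.lt_trichotomy p.1 q.1 with h4 | h4 | h4
        · exfalso
          have : p.1 * T + T ≤ q.1 * T := by nlinarith
          omega
        · exact h4
        · exfalso
          have : q.1 * T + T ≤ p.1 * T := by nlinarith
          omega
      rw [h3] at h2
      exact Prod.ext h3 (by omega)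
  rw [card_range] at h
  have h5 : (T * T) % 2 = 1 := by rw [Nat.mul_mod, hT]
  omega

theorem card_even_even (T : ℕ) (hT : T % 2 = 0) :
    2 * ((range T ×ˢ range T).filter (fun p => (p.1 + p.2) % 2 = 0)).card ≤ T * T := by
  have h : ((range T ×ˢ range T).filter (fun p => (p.1 + p.2) % 2 = 0)).card ≤
      (range T ×ˢ range (T / 2)).card := by
    apply card_le_card_of_injOn (fun p => (p.1, p.2 / 2))
    · intro p hp
      rw [mem_coe, mem_filter, mem_product, mem_range, mem_range] at hp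
      rw [mem_coe, mem_product, mem_range, mem_range]
      simp only
      omega
    · intro p hp q hq hpq
      rw [mem_coe, mem_filter, mem_product, mem_range, mem_range] at hp hq
      rw [Prod.mk.injEq] at hpq
      exact Prod.ext hpq.1 (by omega)
  rw [card_product, card_range, card_range] at h
  obtain ⟨M, rfl⟩ : ∃ M, T = 2 * M := ⟨T / 2, by omega⟩
  have h1 : 2 * M / 2 = M := by omega
  rw [h1] at h
  calc _ ≤ 2 * (2 * M * M) := Nat.mul_le_mul_left _ h
    _ = 2 * M * (2 * M) := by ring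

/-- A box that covers all cells has at least `2k` cells. -/
theorem count_all [NeZero k] {α β : ZMod k} {P Q : ℕ}
    (hgen : ∀ z : ZMod k, ∃ X Y : ℤ, X • α + Y • β = z)
    (hcov : ∀ u v : ℤ, ∃ x y : ℤ, InL α β x y ∧
      0 ≤ u - (x + y) ∧ u - (x + y) < (P : ℤ) ∧ 0 ≤ v - (x - y) ∧ v - (x - y) < (Q : ℤ)) :
    2 * k ≤ P * Q := by
  have hsurj : (range P ×ˢ range Q).image
      (fun p : ℕ × ℕ => (((p.1 + p.2 : ℕ) : ZMod 2),
        (((p.1 : ℤ) + p.2 + 1) / 2) • α + (((p.1 : ℤ) - p.2 + 1) / 2) • β)) =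
      (univ : Finset (ZMod 2 × ZMod k)) := by
    rw [eq_univ_iff_forall]
    rintro ⟨ε, z⟩
    obtain ⟨X, Y, hXY⟩ := hgen z
    obtain ⟨e, he, heε⟩ : ∃ e : ℤ, (e = 0 ∨ e = 1) ∧ (e : ZMod 2) = ε := by
      revert ε
      intro ε
      fin_cases ε
      · exact ⟨0, Or.inl rfl, rfl⟩
      · exact ⟨1, Or.inr rfl, rfl⟩
    obtain ⟨x, y, hL, u1, u2, v1, v2⟩ := hcov (X + Y - e) (X - Y)
    rw [mem_image]
    refine ⟨((X + Y - e - (x + y)).toNat, (X - Y - (x - y)).toNat), ?_, ?_⟩
    · rw [mem_product, mem_range, mem_range]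
      exact ⟨by omega, by omega⟩
    · rw [Prod.mk.injEq]
      constructor
      · simp only
        rw [← heε]
        have e0 : (((X + Y - e - (x + y)).toNat + (X - Y - (x - y)).toNat : ℕ) : ℤ) =
            e + 2 * (X - x - e) := by
          push_cast
          rw [Int.toNat_of_nonneg u1, Int.toNat_of_nonneg v1]
          ring
        have e1 := congrArg (Int.cast : ℤ → ZMod 2) e0
        rw [Int.cast_natCast] at e1
        rw [e1]
        push_cast
        have e2 : (2 : ZMod 2) = 0 := by decide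
        rw [e2, zero_mul, add_zero]
      · simp only
        rw [Int.toNat_of_nonneg u1, Int.toNat_of_nonneg v1]
        have e1 : (X + Y - e - (x + y) + (X - Y - (x - y)) + 1) / 2 = X - x := by omega
        have e2 : (X + Y - e - (x + y) - (X - Y - (x - y)) + 1) / 2 = Y - y := by omega
        rw [e1, e2, sub_smul, sub_smul, sub_add_sub_comm, hXY]
        unfold InL at hL
        rw [hL, sub_zero]
  have h1 := congrArg Finset.card hsurj
  rw [Finset.card_univ, Fintype.card_prod, ZMod.card, ZMod.card] at h1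
  rw [← h1, ← card_range P, ← card_range Q, ← card_product, card_range, card_range]
  exact card_image_le

/-- If `2k` is large, there is a relation vector spanning the width of the box. -/
theorem exists_top [NeZero k] {α β : ZMod k} {N : ℕ} (hN : 1 ≤ N)
    (hgen : ∀ z : ZMod k, ∃ X Y : ℤ, X • α + Y • β = z)
    (hcov : CovAll α β ((2 * N : ℕ) : ℤ)) (hk : (2 * N - 1) * (2 * N) < 2 * k) :
    ∃ y : ℤ, y.natAbs < N ∧ InL α β (N + y) (N - y) := by
  by_contra hcon
  push Not at hcon
  have hcov' : ∀ u v : ℤ, ∃ x y : ℤ, InL α β x y ∧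
      0 ≤ u - (x + y) ∧ u - (x + y) < ((2 * N - 1 : ℕ) : ℤ) ∧ 0 ≤ v - (x - y) ∧
      v - (x - y) < ((2 * N : ℕ) : ℤ) := by
    intro u v
    obtain ⟨x, y, hL, u1, u2, v1, v2⟩ := hcov u v
    by_cases hlt : u - (x + y) < ((2 * N - 1 : ℕ) : ℤ)
    · exact ⟨x, y, hL, u1, hlt, v1, v2⟩
    · have hu : u - (x + y) = 2 * N - 1 := by omega
      obtain ⟨x', y', hL', u1', u2', v1', v2'⟩ := hcov ((2 * N : ℕ) : ℤ) (v - (x - y))
      by_cases h0 : ((2 * N : ℕ) : ℤ) - (x' + y') = 0
      · exfalso
        refine hcon (x' - N) (by omega) ?_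
        have e1 : (N : ℤ) + (x' - N) = x' := by ring
        have e2 : (N : ℤ) - (x' - N) = y' := by push_cast at h0; linarith
        rw [e1, e2]
        exact hL'
      · exact ⟨x + x', y + y', hL.add hL', by omega, by omega, by omega, by omega⟩
  have := count_all hgen hcov'
  omega

theorem two_torsion (hk : 0 < k) (g h : ZMod k) (hg : (2 : ℤ) • g = 0)
    (hh : (2 : ℤ) • h = 0) : g = 0 ∨ h = 0 ∨ g = h := by
  have : NeZero k := ⟨hk.ne'⟩
  have key : ∀ z : ZMod k, (2 : ℤ) • z = 0 → z.val = 0 ∨ 2 * z.val = k := by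
    intro z hz
    have h2 : ((2 * z.val : ℕ) : ZMod k) = 0 := by
      push_cast
      rw [ZMod.natCast_zmod_val]
      simpa [zsmul_eq_mul] using hz
    rw [ZMod.natCast_eq_zero_iff] at h2
    obtain ⟨w, hw⟩ := h2
    have hlt := ZMod.val_lt z
    have hw2 : w < 2 := by
      by_contra hcon
      have : k * 2 ≤ k * w := Nat.mul_le_mul_left _ (by omega)
      omega
    have : w = 0 ∨ w = 1 := by omega
    rcases this with rfl | rfl
    · left; omega
    · right; omega
  rcases key g hg with h1 | h1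
  · left; exact (ZMod.val_eq_zero g).mp h1
  · rcases key h hh with h2 | h2
    · right; left; exact (ZMod.val_eq_zero h).mp h2
    · right; right
      apply ZMod.val_injective
      omega

theorem dvd_det {α β : ZMod k} (hgen : ∀ z : ZMod k, ∃ X Y : ℤ, X • α + Y • β = z)
    {p q r t : ℤ} (h1 : InL α β p q) (h2 : InL α β r t) : (k : ℤ) ∣ p * t - q * r := by
  unfold InL at h1 h2
  obtain ⟨X, Y, hXY⟩ := hgen 1
  rw [← ZMod.intCast_zmod_eq_zero_iff_dvd]
  simp only [zsmul_eq_mul] at h1 h2 hXY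
  push_cast
  calc (p : ZMod k) * t - q * r = (p * t - q * r) * (X * α + Y * β) := by rw [hXY, mul_one]
    _ = (X * t - Y * r) * (p * α + q * β) + (Y * p - X * q) * (r * α + t * β) := by ring
    _ = 0 := by rw [h1, h2]; ring

/-- The exceptional values of `k`. -/
theorem no_exception {N j : ℕ} (hN : 1 ≤ N) (hj : 0 < j) (hjN : j < N)
    (hk : k + j = 2 * N * N) {α β : ZMod k}
    (hgen : ∀ z : ZMod k, ∃ X Y : ℤ, X • α + Y • β = z)
    (hcov : CovAll α β ((2 * N : ℕ) : ℤ))
    (hexc : (N % 2 = 0 ∧ j % 2 = 1) ∨ (N % 2 = 1 ∧ ¬ 4 ∣ j)) : False := by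
  have hk0 : 0 < k := by nlinarith
  have : NeZero k := ⟨hk0.ne'⟩
  have hbig : (2 * N - 1) * (2 * N) < 2 * k := by
    have h1 : (2 * N - 1) * (2 * N) + 2 * N = 2 * (2 * N * N) := by
      obtain ⟨M, rfl⟩ : ∃ M, N = M + 1 := ⟨N - 1, by omega⟩
      have : 2 * (M + 1) - 1 = 2 * M + 1 := by omega
      rw [this]; ring
    omega
  obtain ⟨y, hy, e1⟩ := exists_top hN hgen hcov hbig
  have hgen' : ∀ z : ZMod k, ∃ X Y : ℤ, X • α + Y • (-β) = z := by
    intro z
    obtain ⟨X, Y, h⟩ := hgen z
    exact ⟨X, -Y, by rw [smul_neg, neg_smul, neg_neg]; exact h⟩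
  have hcov' : CovAll α (-β) ((2 * N : ℕ) : ℤ) := by
    intro u v
    obtain ⟨x, y, hL, u1, u2, v1, v2⟩ := hcov v u
    refine ⟨x, -y, ?_, ?_, ?_, ?_, ?_⟩
    · unfold InL at hL ⊢
      rw [smul_neg, neg_smul, neg_neg]; exact hL
    · rw [← sub_eq_add_neg]; exact v1
    · rw [← sub_eq_add_neg]; exact v2
    · rw [sub_neg_eq_add]; exact u1
    · rw [sub_neg_eq_add]; exact u2
  obtain ⟨x, hx, e2⟩ := exists_top hN hgen' hcov' hbig
  have e2' : InL α β (N + x) (x - N) := by
    unfold InL at e2 ⊢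
    rw [← e2]
    simp only [zsmul_eq_mul]
    push_cast
    ring
  have hd := dvd_det hgen e1 e2'
  obtain ⟨M, hM⟩ : ∃ M : ℤ, M = 2 * (N : ℤ) * N - 2 * x * y := ⟨_, rfl⟩
  have hdvd : (k : ℤ) ∣ M := by
    rw [← dvd_neg]
    have e : -M = ((N : ℤ) + y) * (x - N) - (N - y) * (N + x) := by rw [hM]; ring
    rw [e]; exact hd
  have hx' : -((N : ℤ) - 1) ≤ x ∧ x ≤ (N : ℤ) - 1 := by omega
  have hy' : -((N : ℤ) - 1) ≤ y ∧ y ≤ (N : ℤ) - 1 := by omega
  have hxy1 : x * y ≤ ((N : ℤ) - 1) * ((N : ℤ) - 1) := by nlinarith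
  have hxy2 : -(((N : ℤ) - 1) * ((N : ℤ) - 1)) ≤ x * y := by nlinarith
  have hkz : (k : ℤ) + j = 2 * (N : ℤ) * N := by exact_mod_cast hk
  have hN1 : (1 : ℤ) ≤ N := by exact_mod_cast hN
  have hjN' : (j : ℤ) + 1 ≤ N := by exact_mod_cast hjN
  have hkpos : (0 : ℤ) < k := by exact_mod_cast hk0
  have hMk : M = k := by
    obtain ⟨w, hw⟩ := hdvd
    have hM0 : 0 < M := by rw [hM]; nlinarith
    have hM1 : M < 2 * k := by rw [hM]; nlinarith
    have hw0 : 0 < w := by
      by_contra hcon
      have : (k : ℤ) * w ≤ 0 := mul_nonpos_of_nonneg_of_nonpos hkpos.le (by omega)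
      omega
    have hw1 : w < 2 := by
      by_contra hcon
      have : (k : ℤ) * 2 ≤ k * w := mul_le_mul_of_nonneg_left (by omega) hkpos.le
      omega
    have : w = 1 := by omega
    rw [hw, this, mul_one]
  have hjxy : (j : ℤ) = 2 * (x * y) := by
    rw [hM] at hMk
    linarith
  rcases hexc with ⟨-, hodd⟩ | ⟨hNodd, hj4⟩
  · omega
  · have hxyodd : (x * y) % 2 = 1 := by
      by_contra hcon
      apply hj4
      have h2 : (x * y) % 2 = 0 := by omega
      have : (4 : ℤ) ∣ j := by omega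
      exact_mod_cast this
    have hxo : x % 2 = 1 := by
      by_contra hcon
      have h0 : x % 2 = 0 := by omega
      rw [Int.mul_emod, h0] at hxyodd
      simp at hxyodd
    have hyo : y % 2 = 1 := by
      by_contra hcon
      have h0 : y % 2 = 0 := by omega
      rw [Int.mul_emod, h0] at hxyodd
      simp at hxyodd
    obtain ⟨p1, hp1⟩ : ∃ p1 : ℤ, (N : ℤ) + y = 2 * p1 := ⟨((N : ℤ) + y) / 2, by omega⟩
    obtain ⟨p2, hp2⟩ : ∃ p2 : ℤ, (N : ℤ) - y = 2 * p2 := ⟨((N : ℤ) - y) / 2, by omega⟩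
    obtain ⟨q1, hq1⟩ : ∃ q1 : ℤ, (N : ℤ) + x = 2 * q1 := ⟨((N : ℤ) + x) / 2, by omega⟩
    obtain ⟨q2, hq2⟩ : ∃ q2 : ℤ, x - (N : ℤ) = 2 * q2 := ⟨(x - (N : ℤ)) / 2, by omega⟩
    have t1 : (2 : ℤ) • (p1 • α + p2 • β) = 0 := by
      rw [smul_add, smul_smul, smul_smul, ← hp1, ← hp2]; exact e1
    have t2 : (2 : ℤ) • (q1 • α + q2 • β) = 0 := by
      rw [smul_add, smul_smul, smul_smul, ← hq1, ← hq2]; exact e2'
    -- in each case `k` divides `k / 2`
    have hhalf : ∀ D : ℤ, (k : ℤ) ∣ D → 2 * D = -(k : ℤ) → False := by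
      rintro D ⟨w, hw⟩ hD
      rw [hw] at hD
      have h5 : (k : ℤ) * (2 * w + 1) = 0 := by linarith
      rcases mul_eq_zero.mp h5 with h6 | h6
      · omega
      · omega
    rcases two_torsion hk0 _ _ t1 t2 with h3 | h3 | h3
    · refine hhalf _ (dvd_det hgen (show InL α β p1 p2 from h3) e2') ?_
      rw [← hMk, hM]
      linear_combination (-(x - (N : ℤ))) * hp1 + ((N : ℤ) + x) * hp2
    · refine hhalf _ (dvd_det hgen e1 (show InL α β q1 q2 from h3)) ?_
      rw [← hMk, hM]
      linear_combination (-((N : ℤ) + y)) * hq2 + ((N : ℤ) - y) * hq1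
    · have h4 : InL α β (p1 - q1) (p2 - q2) := by
        unfold InL
        rw [sub_smul, sub_smul, sub_add_sub_comm, h3, sub_self]
      refine hhalf _ (dvd_det hgen h4 e2') ?_
      rw [← hMk, hM]
      linear_combination (-(x - (N : ℤ))) * hp1 + ((N : ℤ) + x) * hp2 +
        (x - (N : ℤ)) * hq1 - ((N : ℤ) + x) * hq2

end count

/-! ### The classification -/

/-- The arithmetic condition for `ℤ_c × ℤ_{ck}` to have a two-element `s`-spanning set. -/
def Admissible (s c k : ℕ) : Prop :=
  (((2 * s + 1) / c) % 2 = 1 ∧ (2 * k + 1 ≤ ((2 * s + 1) / c) ^ 2 ∨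
      (c % 2 = 1 ∧ c ∣ 2 * s + 2 ∧ 2 * k ≤ ((2 * s + 1) / c) ^ 2 + 1))) ∨
  (((2 * s + 1) / c) % 2 = 0 ∧ 2 * k ≤ ((2 * s + 1) / c) ^ 2 ∧
    ¬ ∃ j : ℕ, 0 < j ∧ 2 * j < (2 * s + 1) / c ∧ 2 * (k + j) = ((2 * s + 1) / c) ^ 2 ∧
      ((((2 * s + 1) / c) % 4 = 0 ∧ j % 2 = 1) ∨ (((2 * s + 1) / c) % 4 = 2 ∧ ¬ 4 ∣ j)))

theorem classification {s c k : ℕ} (hc : 2 ≤ c) (hk : 1 ≤ k) :
    (∃ a b : ZMod c × ZMod (c * k), SpanPair s a b) ↔ Admissible s c k := by
  have : NeZero k := ⟨by omega⟩
  obtain ⟨T, hT⟩ : ∃ T, T = (2 * s + 1) / c := ⟨_, rfl⟩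
  obtain ⟨ρ, hρ⟩ : ∃ ρ, ρ = (2 * s + 1) % c := ⟨_, rfl⟩
  have hTρ : ρ + c * T = 2 * s + 1 := by rw [hT, hρ]; exact Nat.mod_add_div _ _
  have hρc : ρ < c := by rw [hρ]; exact Nat.mod_lt _ (by omega)
  unfold Admissible
  rw [← hT]
  constructor
  · rintro ⟨a, b, h⟩
    have hgen := gen h
    have hcl := cover_class hc hk h
    rw [← hT, ← hρ] at hcl
    -- even cells
    have heven : ∀ u v : ℤ, (u - v) % 2 = 0 → ∃ x y : ℤ, InL (second c k a) (second c k b) x y ∧
        0 ≤ u - (x + y) ∧ u - (x + y) < (T : ℤ) ∧ 0 ≤ v - (x - y) ∧ v - (x - y) < (T : ℤ) := by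
      intro u v huv
      refine hcl (-(s : ℤ) + c - 1) (-(s : ℤ) + c - 1) (by omega) (by omega) (by omega) (by omega)
        u v ?_
      have e : -(s : ℤ) + c - 1 + c * u - (-(s : ℤ) + c - 1 + c * v) = c * (u - v) := by ring
      rw [e, Int.mul_emod, huv]
      simp
    by_cases hcE : c % 2 = 0
    · -- `c` even
      have hall : CovAll (second c k a) (second c k b) (T : ℤ) := by
        intro u v
        refine hcl (-(s : ℤ) + c - 1) (-(s : ℤ) + c - 1) (by omega) (by omega) (by omega)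
          (by omega) u v ?_
        have e : -(s : ℤ) + c - 1 + c * u - (-(s : ℤ) + c - 1 + c * v) = c * (u - v) := by ring
        have hcE' : (c : ℤ) % 2 = 0 := by omega
        rw [e, Int.mul_emod, hcE']
        simp
      rcases Nat.mod_two_eq_zero_or_one T with h0 | h1
      · right
        refine ⟨h0, ?_, ?_⟩
        · have h2 := even_count hgen heven
          have h3 := card_even_even T h0
          rw [sq]; omega
        · rintro ⟨j, hj, hjT, hkj, hexc⟩
          obtain ⟨N, rfl⟩ : ∃ N, T = 2 * N := ⟨T / 2, by omega⟩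
          apply no_exception (N := N) (by omega) hj (by omega) _ hgen hall
          · rcases hexc with ⟨h4, h5⟩ | ⟨h4, h5⟩
            · left; exact ⟨by omega, h5⟩
            · right; exact ⟨by omega, h5⟩
          · have : (2 * N) ^ 2 = 2 * (2 * N * N) := by ring
            omega
      · left
        refine ⟨h1, Or.inl ?_⟩
        have h2 := odd_count hgen (fun u v _ => hall u v)
        have h3 := card_odd_odd T h1
        rw [sq]; omega
    · by_cases hρ1 : ρ = c - 1
      · -- `c` odd and `c ∣ 2s + 2`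
        have h5 : 2 * s + 2 = c * (T + 1) := by
          have : c * (T + 1) = c * T + c := by ring
          omega
        have hT1 : T % 2 = 1 := by
          by_contra hcon
          have h6 : (c * (T + 1)) % 2 = 1 := by
            rw [Nat.mul_mod]
            have : (T + 1) % 2 = 1 := by omega
            have : c % 2 = 1 := by omega
            rw [this, ‹(T + 1) % 2 = 1›]
          omega
        left
        refine ⟨hT1, Or.inr ⟨by omega, ⟨T + 1, h5⟩, ?_⟩⟩
        have h2 := even_count hgen heven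
        have h3 := card_even_odd T hT1
        rw [sq]; omega
      · -- odd cells are covered as well
        have hodd : ∀ u v : ℤ, (u - v) % 2 = 1 →
            ∃ x y : ℤ, InL (second c k a) (second c k b) x y ∧
            0 ≤ u - (x + y) ∧ u - (x + y) < (T : ℤ) ∧ 0 ≤ v - (x - y) ∧ v - (x - y) < (T : ℤ) := by
          intro u v huv
          refine hcl (-(s : ℤ) + c - 1) (-(s : ℤ) + c - 2) (by omega) (by omega) (by omega)
            (by omega) u v ?_
          have e : -(s : ℤ) + c - 1 + c * u - (-(s : ℤ) + c - 2 + c * v) = 1 + c * (u - v) := by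
            ring
          have hcO : (c : ℤ) % 2 = 1 := by omega
          rw [e, Int.add_emod, Int.mul_emod, huv, hcO]
          norm_num
        have hall : CovAll (second c k a) (second c k b) (T : ℤ) := by
          intro u v
          rcases Int.emod_two_eq_zero_or_one (u - v) with h0 | h1
          · exact heven u v h0
          · exact hodd u v h1
        rcases Nat.mod_two_eq_zero_or_one T with h0 | h1
        · right
          refine ⟨h0, ?_, ?_⟩
          · have h2 := even_count hgen heven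
            have h3 := card_even_even T h0
            rw [sq]; omega
          · rintro ⟨j, hj, hjT, hkj, hexc⟩
            obtain ⟨N, rfl⟩ : ∃ N, T = 2 * N := ⟨T / 2, by omega⟩
            apply no_exception (N := N) (by omega) hj (by omega) _ hgen hall
            · rcases hexc with ⟨h4, h5⟩ | ⟨h4, h5⟩
              · left; exact ⟨by omega, h5⟩
              · right; exact ⟨by omega, h5⟩
            · have : (2 * N) ^ 2 = 2 * (2 * N * N) := by ring
              omega
        · left
          refine ⟨h1, Or.inl ?_⟩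
          have h2 := odd_count hgen hodd
          have h3 := card_odd_odd T h1
          rw [sq]; omega
  · rintro (⟨h1, h2⟩ | ⟨h0, h2, h3⟩)
    · rcases h2 with h2 | ⟨hco, ⟨q, hq⟩, h2⟩
      · obtain ⟨r, rfl⟩ : ∃ r, T = 2 * r + 1 := ⟨T / 2, by omega⟩
        refine span_odd (r := r) (a := 2 * r + 1) hc hk (by omega) ?_ (by rw [← hT])
          (by rw [← hT])
        rw [sq] at h2
        omega
      · by_cases heq : 2 * k = T * T + 1
        · have hqT : q = T + 1 := by
            have h4 : c * T ≤ 2 * s + 1 := by omega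
            have h5 : 2 * s + 1 < c * T + c := by omega
            have h6 : c * T < c * q := by omega
            have h7 : c * q ≤ c * (T + 1) := by
              have : c * (T + 1) = c * T + c := by ring
              omega
            have h8 := Nat.lt_of_mul_lt_mul_left h6
            have h9 := Nat.le_of_mul_le_mul_left h7 (by omega)
            omega
          exact span_perfect hc hco h1 (by rw [hq, hqT]) heq
        · obtain ⟨r, rfl⟩ : ∃ r, T = 2 * r + 1 := ⟨T / 2, by omega⟩
          refine span_odd (r := r) (a := 2 * r + 1) hc hk (by omega) ?_ (by rw [← hT])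
            (by rw [← hT])
          rw [sq] at h2
          omega
    · obtain ⟨N, rfl⟩ : ∃ N, T = 2 * N := ⟨T / 2, by omega⟩
      have hsq : (2 * N) ^ 2 = 2 * (2 * N * N) := by ring
      rw [hsq] at h2 h3
      have hN : 1 ≤ N := by
        by_contra hcon
        have : N = 0 := by omega
        subst this
        omega
      by_cases hsmall : 2 * k ≤ 2 * N * (2 * N - 1)
      · refine span_odd (r := N - 1) (a := 2 * N) hc hk (by omega) ?_ (by rw [← hT])
          (by rw [← hT]; omega)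
        have : 2 * (N - 1) + 1 = 2 * N - 1 := by omega
        rw [this]
        exact hsmall
      · obtain ⟨j, hj⟩ : ∃ j, j = 2 * N * N - k := ⟨_, rfl⟩
        have hkj : k + j = 2 * N * N := by omega
        have hmul : 2 * N * (2 * N - 1) + 2 * N = 2 * (2 * N * N) := by
          obtain ⟨M, rfl⟩ : ∃ M, N = M + 1 := ⟨N - 1, by omega⟩
          have : 2 * (M + 1) - 1 = 2 * M + 1 := by omega
          rw [this]; ring
        have hjN : j < N := by omega
        have hnot : ¬ (((2 * N) % 4 = 0 ∧ j % 2 = 1) ∨ ((2 * N) % 4 = 2 ∧ ¬ 4 ∣ j)) ∨ j = 0 := by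
          by_cases hj0 : j = 0
          · right; exact hj0
          · left
            intro h
            exact h3 ⟨j, by omega, by omega, by omega, h⟩
        refine span_even (N := N) (y := j / 2) hc hk hN hT.symm ?_ ?_
        · rcases hnot with h | h
          · have : j % 2 = 0 := by
              by_contra hcon
              apply h
              rcases Nat.mod_two_eq_zero_or_one N with h4 | h4
              · left; omega
              · right; omega
            omega
          · omega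
        · rcases Nat.mod_two_eq_zero_or_one N with h4 | h4
          · left; exact h4
          · right
            refine ⟨h4, ?_⟩
            rcases hnot with h | h
            · have : 4 ∣ j := by
                by_contra hcon
                exact h (Or.inr ⟨by omega, hcon⟩)
              omega
            · omega

end Pool.Agent.V11178.RankTwo
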