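import Mathlib

/-!
# Signed sumsets with at most `s` terms and `s`-spanning sets

Definitions shared by the hand-ins on `φ±(G, [0, s])`, with their basic properties.
-/

namespace Pool.Agent.V11178

/-- `[0, s]± A`: all sums `∑ λ_a a` over `a ∈ A` with integer coefficients and
`∑ |λ_a| ≤ s`. -/
def signedSumsetLe {G : Type*} [AddCommGroup G] (A : Finset G) (s : ℕ) : Set G :=
  {x | ∃ c : G → ℤ, ∑ a ∈ A, (c a).natAbs ≤ s ∧ ∑ a ∈ A, c a • a = x}

/-- `A` is `s`-spanning: `[0, s]± A = G`. -/
def Spanning {G : Type*} [AddCommGroup G] (s : ℕ) (A : Finset G) : Prop :=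
  signedSumsetLe A s = Set.univ

/-- `φ±(G, [0, s])`: the minimum size of an `s`-spanning set in `G`. -/
noncomputable def phiPM (G : Type*) [AddCommGroup G] (s : ℕ) : ℕ :=
  sInf {k : ℕ | ∃ A : Finset G, A.card = k ∧ Spanning s A}

section
variable {G : Type*} [AddCommGroup G]

theorem spanning_iff (s : ℕ) (A : Finset G) : Spanning s A ↔
    ∀ x : G, ∃ c : G → ℤ, ∑ a ∈ A, (c a).natAbs ≤ s ∧ ∑ a ∈ A, c a • a = x := by
  unfold Spanning signedSumsetLe
  rw [Set.eq_univ_iff_forall]
  rfl

theorem spanning_pair {s : ℕ} [DecidableEq G] {a b : G} (hab : a ≠ b) :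
    Spanning s ({a, b} : Finset G) ↔
      ∀ x : G, ∃ l m : ℤ, l.natAbs + m.natAbs ≤ s ∧ l • a + m • b = x := by
  rw [spanning_iff]
  refine forall_congr' fun x => ?_
  constructor
  · rintro ⟨c, h1, h2⟩
    rw [Finset.sum_pair hab] at h1 h2
    exact ⟨c a, c b, h1, h2⟩
  · rintro ⟨l, m, h1, h2⟩
    refine ⟨fun g => if g = a then l else m, ?_, ?_⟩
    · rw [Finset.sum_pair hab]
      simpa [hab.symm] using h1
    · rw [Finset.sum_pair hab]
      simpa [hab.symm] using h2

/-- `φ± = 2` when there is a two-element spanning set and no one-element one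
(and the group is nontrivial). -/
theorem phiPM_eq_two_iff {s : ℕ} [DecidableEq G] [Nontrivial G]
    (h1 : ∀ a : G, ¬ Spanning s ({a} : Finset G)) :
    phiPM G s = 2 ↔
      ∃ a b : G, ∀ x : G, ∃ l m : ℤ, l.natAbs + m.natAbs ≤ s ∧ l • a + m • b = x := by
  constructor
  · intro h
    have hne : {k : ℕ | ∃ A : Finset G, A.card = k ∧ Spanning s A}.Nonempty := by
      apply Nat.nonempty_of_pos_sInf
      change 0 < phiPM G s
      omega
    obtain ⟨A, hA, hs⟩ := Nat.sInf_mem hne
    rw [show sInf {k : ℕ | ∃ A : Finset G, A.card = k ∧ Spanning s A} = 2 from h] at hA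
    obtain ⟨a, b, hab, rfl⟩ := Finset.card_eq_two.mp hA
    exact ⟨a, b, (spanning_pair hab).mp hs⟩
  · rintro ⟨a, b, hab⟩
    have hne : a ≠ b := by
      rintro rfl
      apply h1 a
      rw [spanning_iff]
      intro x
      obtain ⟨l, m, h2, h3⟩ := hab x
      refine ⟨fun _ => l + m, ?_, ?_⟩
      · rw [Finset.sum_singleton]
        exact (Int.natAbs_add_le l m).trans h2
      · rw [Finset.sum_singleton, add_smul]
        exact h3
    have hmem : 2 ∈ {k : ℕ | ∃ A : Finset G, A.card = k ∧ Spanning s A} :=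
      ⟨{a, b}, Finset.card_pair hne, (spanning_pair hne).mpr hab⟩
    have hle : phiPM G s ≤ 2 := Nat.sInf_le hmem
    obtain ⟨A, hA, hs⟩ := Nat.sInf_mem ⟨2, hmem⟩
    have hA' : A.card = phiPM G s := hA
    have h0 : A.card ≠ 0 := by
      intro h0
      rw [Finset.card_eq_zero] at h0
      subst h0
      obtain ⟨x, hx⟩ := exists_ne (0 : G)
      obtain ⟨c, -, h3⟩ := (spanning_iff _ _).mp hs x
      rw [Finset.sum_empty] at h3
      exact hx h3.symm
    have h1' : A.card ≠ 1 := by
      intro h0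
      obtain ⟨y, rfl⟩ := Finset.card_eq_one.mp h0
      exact h1 y hs
    omega

end

end Pool.Agent.V11178
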