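import Pool.Agent.V11178.RankTwoNec
import Pool.Agent.V11178.Span

/-!
# `φ±(ℤ_c × ℤ_{ck}, [0, s]) = 2` in terms of spanning pairs
-/

set_option autoImplicit false

namespace Pool.Agent.V11178.RankTwo

open Pool.Agent.V11178

theorem not_spanning_single {c k s : ℕ} (hc : 2 ≤ c) (hk : 1 ≤ k)
    (a : ZMod c × ZMod (c * k)) : ¬ Spanning s ({a} : Finset (ZMod c × ZMod (c * k))) := by
  intro h
  rw [spanning_iff] at h
  have : NeZero c := ⟨by omega⟩
  have hck : 0 < c * k := by positivity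
  have : NeZero (c * k) := ⟨hck.ne'⟩
  have hzero : ((c * k : ℕ) : ℤ) • a = 0 := by
    obtain ⟨a1, a2⟩ := a
    simp only [Prod.smul_mk, zsmul_eq_mul]
    have e1 : (((c * k : ℕ) : ℤ) : ZMod c) = 0 := by
      rw [Int.cast_natCast, ZMod.natCast_eq_zero_iff]
      exact Dvd.intro k rfl
    have e2 : (((c * k : ℕ) : ℤ) : ZMod (c * k)) = 0 := by
      rw [Int.cast_natCast, ZMod.natCast_self]
    rw [e1, e2, zero_mul, zero_mul]
    rfl
  have hsurj : Function.Surjective (fun i : Fin (c * k) => ((i : ℕ) : ℤ) • a) := by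
    intro x
    obtain ⟨f, -, hf⟩ := h x
    rw [Finset.sum_singleton] at hf
    have hpos : (0 : ℤ) < ((c * k : ℕ) : ℤ) := by exact_mod_cast hck
    have h1 := Int.emod_nonneg (f a) hpos.ne'
    have h2 := Int.emod_lt_of_pos (f a) hpos
    refine ⟨⟨(f a % ((c * k : ℕ) : ℤ)).toNat, by omega⟩, ?_⟩
    simp only
    rw [Int.toNat_of_nonneg h1]
    rw [← hf]
    conv_rhs => rw [← Int.emod_add_mul_ediv (f a) ((c * k : ℕ) : ℤ)]
    rw [add_smul, mul_comm (((c * k : ℕ) : ℤ)), mul_smul, hzero, smul_zero, add_zero]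
  have hcard := Fintype.card_le_of_surjective _ hsurj
  rw [Fintype.card_fin, Fintype.card_prod, ZMod.card, ZMod.card] at hcard
  nlinarith

theorem phi_eq_two_iff {c k s : ℕ} (hc : 2 ≤ c) (hk : 1 ≤ k) :
    phiPM (ZMod c × ZMod (c * k)) s = 2 ↔ Admissible s c k := by
  have hf : Fact (1 < c) := ⟨by omega⟩
  rw [phiPM_eq_two_iff (fun a => not_spanning_single hc hk a), ← classification hc hk]
  rfl

end Pool.Agent.V11178.RankTwo
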