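import Mathlib

/-!
# Signed sumsets and `t`-independent sets

Definitions shared by the hand-ins on `τ±(G, [1, t])`, with their basic properties.
-/

namespace Pool.Agent.V11178

/-- The `h`-fold signed sumset `h± A`: all sums `∑ λ_a a` over `a ∈ A` with integer coefficients
and `∑ |λ_a| = h`. -/
def signedSumset {G : Type*} [AddCommGroup G] (A : Finset G) (h : ℕ) : Set G :=
  {x | ∃ c : G → ℤ, ∑ a ∈ A, (c a).natAbs = h ∧ ∑ a ∈ A, c a • a = x}

/-- `A` is `t`-independent: `0` is in none of the `h`-fold signed sumsets, `1 ≤ h ≤ t`. -/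
def TIndep {G : Type*} [AddCommGroup G] (t : ℕ) (A : Finset G) : Prop :=
  ∀ h : ℕ, 1 ≤ h → h ≤ t → (0 : G) ∉ signedSumset A h

/-- `τ±(G, [1, t])`: the maximum size of a `t`-independent set in `G`. -/
noncomputable def tauPM (G : Type*) [AddCommGroup G] (t : ℕ) : ℕ :=
  sSup {k : ℕ | ∃ A : Finset G, A.card = k ∧ TIndep t A}

section
variable {G : Type*} [AddCommGroup G]

theorem tIndep_iff (t : ℕ) (A : Finset G) : TIndep t A ↔
    ∀ c : G → ℤ, 1 ≤ ∑ a ∈ A, (c a).natAbs → ∑ a ∈ A, (c a).natAbs ≤ t →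
      ∑ a ∈ A, c a • a ≠ 0 := by
  constructor
  · intro h c h1 h2 h3
    exact h _ h1 h2 ⟨c, rfl, h3⟩
  · intro h k h1 h2 ⟨c, h3, h4⟩
    exact h c (h3 ▸ h1) (h3 ▸ h2) h4

theorem TIndep.subset [DecidableEq G] {t : ℕ} {A B : Finset G} (hA : TIndep t A) (hBA : B ⊆ A) :
    TIndep t B := by
  rw [tIndep_iff] at hA ⊢
  intro c h1 h2 h3
  have e1 : ∑ a ∈ A, (if a ∈ B then c a else 0).natAbs = ∑ a ∈ B, (c a).natAbs := by
    rw [← Finset.sum_subset hBA]
    · exact Finset.sum_congr rfl (fun a ha => by simp [ha])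
    · intro a _ ha
      simp [ha]
  have e2 : ∑ a ∈ A, (if a ∈ B then c a else 0) • a = ∑ a ∈ B, c a • a := by
    rw [← Finset.sum_subset hBA]
    · exact Finset.sum_congr rfl (fun a ha => by simp [ha])
    · intro a _ ha
      simp [ha]
  exact hA (fun a => if a ∈ B then c a else 0) (by simpa only [e1] using h1)
    (by simpa only [e1] using h2) (by rw [e2]; exact h3)

theorem bddAbove_tau [Fintype G] (t : ℕ) :
    BddAbove {k : ℕ | ∃ A : Finset G, A.card = k ∧ TIndep t A} := by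
  refine ⟨Fintype.card G, ?_⟩
  rintro k ⟨A, rfl, -⟩
  exact Finset.card_le_univ A

theorem tIndep_empty (t : ℕ) : TIndep t (∅ : Finset G) := by
  rw [tIndep_iff]
  intro c h
  simp at h

theorem le_tauPM [Fintype G] {t : ℕ} {A : Finset G} (hA : TIndep t A) : A.card ≤ tauPM G t :=
  le_csSup (bddAbove_tau t) ⟨A, rfl, hA⟩

theorem tauPM_le [Fintype G] {t k : ℕ} (h : ∀ A : Finset G, TIndep t A → A.card ≤ k) :
    tauPM G t ≤ k := by
  refine csSup_le ⟨0, ∅, by simp, tIndep_empty t⟩ ?_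
  rintro j ⟨A, rfl, hA⟩
  exact h A hA

theorem exists_tauPM [Fintype G] (t : ℕ) : ∃ A : Finset G, A.card = tauPM G t ∧ TIndep t A := by
  have := Nat.sSup_mem (s := {k : ℕ | ∃ A : Finset G, A.card = k ∧ TIndep t A})
    ⟨0, ∅, by simp, tIndep_empty t⟩ (bddAbove_tau t)
  exact this

/-- It is enough to have a bound for subsets of one size: if no `(k+1)`-element set is
`t`-independent, then `τ± ≤ k`. -/
theorem tauPM_le_of_card [Fintype G] [DecidableEq G] {t k : ℕ}
    (h : ∀ A : Finset G, A.card = k + 1 → ¬ TIndep t A) : tauPM G t ≤ k := by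
  apply tauPM_le
  intro A hA
  by_contra hcon
  push Not at hcon
  obtain ⟨B, hB, hBc⟩ := Finset.exists_subset_card_eq (n := k + 1) (s := A) (by omega)
  exact h B hBc (hA.subset hB)

end

end Pool.Agent.V11178
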