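import Pool.Agent.V11178.Noisy
import Pool.Agent.V11178.Signed

/-!
# Signed `[0,s]`-critical numbers of cyclic groups

The set `[0,s]± A` is the `s`-fold sumset of `A ∪ {0} ∪ -A`; for odd order Kneser's theorem and a
parity argument bound the size of `A` when that sumset is not everything.
-/

set_option autoImplicit false
set_option linter.unusedSectionVars false

open scoped Pointwise
open Finset

namespace Pool.Agent.V11178.SignedCrit

open Pool.Agent.V11178 Pool.Agent.V11178.Noisy Pool.Agent.Helper549 Pool.Agent.Helper549.Kneser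

/-- `[0,s]± A`: the union of the `h`-fold signed sumsets `h± A` over `0 ≤ h ≤ s`. -/
def signedUpTo {G : Type*} [AddCommGroup G] (A : Finset G) (s : ℕ) : Set G :=
  {x | ∃ h : ℕ, h ≤ s ∧ x ∈ signedSumset A h}

/-- `v±(n,s)`: the maximum over the divisors `d` of `n` of `(2⌊(d-2)/(2s)⌋+1)·n/d`
(integer floor). -/
noncomputable def vPM (n s : ℕ) : ℤ :=
  sSup {k : ℤ | ∃ d ∈ n.divisors,
    k = (2 * (((d : ℤ) - 2) / (2 * (s : ℤ))) + 1) * ((n : ℤ) / (d : ℤ))}

section general
variable {G : Type*} [AddCommGroup G]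

theorem mem_signedUpTo (A : Finset G) (s : ℕ) (x : G) : x ∈ signedUpTo A s ↔
    ∃ c : G → ℤ, ∑ a ∈ A, (c a).natAbs ≤ s ∧ ∑ a ∈ A, c a • a = x := by
  constructor
  · rintro ⟨h, hs, c, h1, h2⟩
    exact ⟨c, h1 ▸ hs, h2⟩
  · rintro ⟨c, h1, h2⟩
    exact ⟨_, h1, c, rfl, h2⟩

variable [DecidableEq G]

theorem signedUpTo_mono {A B : Finset G} (h : A ⊆ B) (s : ℕ) :
    signedUpTo A s ⊆ signedUpTo B s := by
  intro x hx
  rw [mem_signedUpTo] at hx ⊢
  obtain ⟨c, h1, h2⟩ := hx
  refine ⟨fun a => if a ∈ A then c a else 0, ?_, ?_⟩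
  · have e1 : ∑ a ∈ B, (if a ∈ A then c a else 0).natAbs = ∑ a ∈ A, (c a).natAbs := by
      rw [← Finset.sum_subset h]
      · exact Finset.sum_congr rfl (fun a ha => by simp [ha])
      · intro a _ ha
        simp [ha]
    rw [e1]; exact h1
  · have e2 : ∑ a ∈ B, (if a ∈ A then c a else 0) • a = ∑ a ∈ A, c a • a := by
      rw [← Finset.sum_subset h]
      · exact Finset.sum_congr rfl (fun a ha => by simp [ha])
      · intro a _ ha
        simp [ha]
    rw [e2]; exact h2

/-- The set `A ∪ {0} ∪ -A`. -/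
def hull (A : Finset G) : Finset G := insert 0 (A ∪ -A)

theorem subset_hull (A : Finset G) : A ⊆ hull A := fun x hx => by
  unfold hull; simp [hx]

theorem zero_mem_hull (A : Finset G) : (0 : G) ∈ hull A := by unfold hull; simp

theorem neg_mem_hull {A : Finset G} {x : G} (hx : x ∈ hull A) : -x ∈ hull A := by
  unfold hull at hx ⊢
  simp only [mem_insert, mem_union, Finset.mem_neg', neg_eq_zero, neg_neg] at hx ⊢
  tauto

theorem sum_update_natAbs {A : Finset G} (c : G → ℤ) {b : G} (hb : b ∈ A) (v : ℤ) :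
    ∑ a ∈ A, (Function.update c b v a).natAbs + (c b).natAbs
      = ∑ a ∈ A, (c a).natAbs + v.natAbs := by
  rw [← Finset.add_sum_erase A (fun a => (Function.update c b v a).natAbs) hb,
    ← Finset.add_sum_erase A (fun a => (c a).natAbs) hb]
  have : ∑ a ∈ A.erase b, (Function.update c b v a).natAbs = ∑ a ∈ A.erase b, (c a).natAbs := by
    apply Finset.sum_congr rfl
    intro a ha
    rw [Function.update_of_ne (Finset.ne_of_mem_erase ha)]
  simp only [Function.update_self]
  rw [this]
  ring

theorem sum_update_smul {A : Finset G} (c : G → ℤ) {b : G} (hb : b ∈ A) (v : ℤ) :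
    ∑ a ∈ A, (Function.update c b v a) • a = ∑ a ∈ A, c a • a + (v - c b) • b := by
  rw [← Finset.add_sum_erase A (fun a => (Function.update c b v a) • a) hb,
    ← Finset.add_sum_erase A (fun a => c a • a) hb]
  have : ∑ a ∈ A.erase b, (Function.update c b v a) • a = ∑ a ∈ A.erase b, c a • a := by
    apply Finset.sum_congr rfl
    intro a ha
    rw [Function.update_of_ne (Finset.ne_of_mem_erase ha)]
  simp only [Function.update_self]
  rw [this, sub_smul]
  abel

theorem exists_coeff (A : Finset G) (s : ℕ) : ∀ x ∈ msum s (hull A),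
    ∃ c : G → ℤ, ∑ a ∈ A, (c a).natAbs ≤ s ∧ ∑ a ∈ A, c a • a = x := by
  induction s with
  | zero =>
    intro x hx
    rw [msum_zero, mem_singleton] at hx
    exact ⟨fun _ => 0, by simp, by simp [hx]⟩
  | succ s ih =>
    intro x hx
    rw [msum_succ, Finset.mem_add] at hx
    obtain ⟨y, hy, b, hb, rfl⟩ := hx
    obtain ⟨c, h1, h2⟩ := ih y hy
    unfold hull at hb
    rw [mem_insert, mem_union, Finset.mem_neg'] at hb
    rcases hb with rfl | hb | hb
    · exact ⟨c, by omega, by rw [h2, add_zero]⟩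
    · refine ⟨Function.update c b (c b + 1), ?_, ?_⟩
      · have := sum_update_natAbs c hb (c b + 1)
        omega
      · rw [sum_update_smul c hb, h2]
        simp
    · refine ⟨Function.update c (-b) (c (-b) - 1), ?_, ?_⟩
      · have := sum_update_natAbs c hb (c (-b) - 1)
        omega
      · rw [sum_update_smul c hb, h2]
        simp

theorem zero_mem_msum (A : Finset G) (s : ℕ) : (0 : G) ∈ msum s (hull A) := by
  induction s with
  | zero => simp [msum_zero]
  | succ s ih =>
    rw [msum_succ, Finset.mem_add]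
    exact ⟨0, ih, 0, zero_mem_hull A, add_zero 0⟩

theorem coeff_mem (A : Finset G) (s : ℕ) : ∀ c : G → ℤ, ∑ a ∈ A, (c a).natAbs ≤ s →
    ∑ a ∈ A, c a • a ∈ msum s (hull A) := by
  induction s with
  | zero =>
    intro c hc
    have h0 : ∀ a ∈ A, (c a).natAbs = 0 := by
      apply (Finset.sum_eq_zero_iff).mp
      omega
    have : ∑ a ∈ A, c a • a = 0 := by
      apply Finset.sum_eq_zero
      intro a ha
      have := h0 a ha
      have : c a = 0 := by omega
      rw [this, zero_smul]
    rw [this]; exact zero_mem_msum A 0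
  | succ s ih =>
    intro c hc
    by_cases hz : ∀ a ∈ A, c a = 0
    · have : ∑ a ∈ A, c a • a = 0 := by
        apply Finset.sum_eq_zero
        intro a ha
        rw [hz a ha, zero_smul]
      rw [this]; exact zero_mem_msum A _
    · push Not at hz
      obtain ⟨b, hb, hcb⟩ := hz
      rw [msum_succ, Finset.mem_add]
      rcases lt_or_gt_of_ne hcb with hneg | hpos
      · have e1 := sum_update_natAbs c hb (c b + 1)
        have e2 := ih (Function.update c b (c b + 1)) (by omega)
        refine ⟨_, e2, -b, neg_mem_hull (subset_hull A hb), ?_⟩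
        rw [sum_update_smul c hb]
        simp
      · have e1 := sum_update_natAbs c hb (c b - 1)
        have e2 := ih (Function.update c b (c b - 1)) (by omega)
        refine ⟨_, e2, b, subset_hull A hb, ?_⟩
        rw [sum_update_smul c hb]
        simp

theorem signedUpTo_eq (A : Finset G) (s : ℕ) : signedUpTo A s = ↑(msum s (hull A)) := by
  ext x
  rw [mem_signedUpTo, mem_coe]
  constructor
  · rintro ⟨c, h1, h2⟩
    rw [← h2]; exact coeff_mem A s c h1
  · exact exists_coeff A s x

theorem signedUpTo_eq_univ [Fintype G] (A : Finset G) (s : ℕ) :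
    signedUpTo A s = Set.univ ↔ msum s (hull A) = univ := by
  rw [signedUpTo_eq, ← Finset.coe_univ, Finset.coe_inj]

end general

section kneser
variable {G : Type*} [AddCommGroup G] [Fintype G] [DecidableEq G]

theorem msum_one (A : Finset G) : msum 1 A = A := by
  rw [msum_succ, msum_zero, Finset.singleton_add]
  ext x; simp

theorem stab_msum_mono {j k : ℕ} (h : j ≤ k) (A : Finset G) :
    stab (msum j A) ≤ stab (msum k A) := by
  induction k, h using Nat.le_induction with
  | base => exact le_rfl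
  | succ k _ ih => exact ih.trans (by rw [msum_succ]; exact stab_le_stab_add _ _)

theorem kneser_msum (P : Finset G) (hP : P.Nonempty) (H : AddSubgroup G) (s : ℕ)
    (hst : stab (msum s P) = H) : ∀ j, 1 ≤ j → j ≤ s →
    j * P.card ≤ (msum j P).card + (j - 1) * (fs H).card := by
  intro j hj
  induction j, hj using Nat.le_induction with
  | base => intro _; rw [msum_one]; omega
  | succ j hj ih =>
    intro hjs
    have h1 := ih (by omega)
    have h2 := kneser (msum j P) P (msum_nonempty hP j) hP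
    rw [← msum_succ] at h2
    have h3 : (fs (stab (msum (j + 1) P))).card ≤ (fs H).card := by
      apply Finset.card_le_card
      apply fs_mono
      rw [← hst]
      exact stab_msum_mono hjs P
    obtain ⟨i, rfl⟩ : ∃ i, j = i + 1 := ⟨j - 1, by omega⟩
    simp only [Nat.add_sub_cancel] at h1 ⊢
    have e1 : (i + 1 + 1) * P.card = (i + 1) * P.card + P.card := by ring
    have e2 : (i + 1) * (fs H).card = i * (fs H).card + (fs H).card := by ring
    omega

theorem fs_add_fs (H : AddSubgroup G) : fs H + fs H = fs H := by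
  apply add_fs_stab
  intro g hg x
  rw [mem_fs, mem_fs]
  exact ⟨fun hx => H.add_mem hx hg, fun hx => by
    have := H.sub_mem hx hg
    rwa [add_sub_cancel_right] at this⟩

theorem msum_fs (H : AddSubgroup G) (s : ℕ) (hs : 1 ≤ s) : msum s (fs H) = fs H := by
  induction s, hs using Nat.le_induction with
  | base => exact msum_one _
  | succ j _ ih => rw [msum_succ, ih, fs_add_fs]

theorem odd_card_of_sym (hodd : Odd (Fintype.card G)) (P : Finset G) (h0 : (0 : G) ∈ P)
    (hneg : ∀ x ∈ P, -x ∈ P) : Odd P.card := by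
  have h1 : Even (P.erase 0).card := by
    have h2 : ∑ x ∈ P.erase 0, (1 : ZMod 2) = 0 := by
      apply Finset.sum_involution (fun x _ => -x)
      · intro x _; decide
      · intro x hx _ heq
        have hx0 : x ≠ 0 := Finset.ne_of_mem_erase hx
        apply hx0
        have h2x : (2 : ℕ) • x = 0 := by
          rw [two_nsmul]
          nth_rewrite 1 [← heq]
          exact neg_add_cancel x
        have hc : (Fintype.card G) • x = 0 := card_nsmul_eq_zero
        obtain ⟨k, hk⟩ := hodd
        rw [hk, add_nsmul, mul_comm, mul_nsmul, one_nsmul] at hc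
        rw [smul_comm, h2x, smul_zero, zero_add] at hc
        exact hc
      · intro x _; exact neg_neg x
      · intro x hx
        rw [mem_erase] at hx ⊢
        exact ⟨neg_ne_zero.mpr hx.1, hneg x hx.2⟩
    rw [Finset.sum_const, nsmul_eq_mul, mul_one] at h2
    exact (ZMod.natCast_eq_zero_iff_even).mp h2
  have h3 := Finset.card_erase_of_mem h0
  have h4 : 0 < P.card := Finset.card_pos.mpr ⟨0, h0⟩
  have h5 : P.card = (P.erase 0).card + 1 := by omega
  rw [h5]
  exact h1.add_one

theorem upper_odd (hodd : Odd (Fintype.card G)) {s : ℕ} (hs : 1 ≤ s) (A : Finset G)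
    (hne : msum s (hull A) ≠ univ) :
    ∃ d, d ∣ Fintype.card G ∧ 2 ≤ d ∧
      A.card ≤ (2 * ((d - 2) / (2 * s)) + 1) * (Fintype.card G / d) := by
  set B := hull A with hB
  set H := stab (msum s B) with hH
  set P := B + fs H with hP
  have hBne : B.Nonempty := ⟨0, zero_mem_hull A⟩
  have hPne : P.Nonempty := hBne.add (fs_nonempty H)
  have hC : msum s P = msum s B := by
    rw [hP, msum_add, msum_fs H s hs]
    exact add_fs_stab _ _ le_rfl
  have hst : stab (msum s P) = H := by rw [hC]
  have hk := kneser_msum P hPne H s hst s hs le_rfl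
  rw [hC] at hk
  obtain ⟨d, hd⟩ := card_dvd_univ H
  obtain ⟨t, ht⟩ := card_dvd H P (by rw [hP]; exact le_stab_add H B)
  obtain ⟨u, hu⟩ := card_dvd H (msum s B) le_rfl
  have hh : 0 < (fs H).card := fs_card_pos H
  set h := (fs H).card with hhdef
  have hCl : (msum s B).card < Fintype.card G := by
    rw [← Finset.card_univ]
    apply Finset.card_lt_card
    rw [Finset.ssubset_univ_iff]
    exact hne
  have hCpos : 0 < (msum s B).card := Finset.card_pos.mpr (msum_nonempty hBne s)
  have hud : u < d := by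
    rw [hu, hd] at hCl
    exact lt_of_mul_lt_mul_left hCl (Nat.zero_le _)
  have hupos : 0 < u := by
    rcases Nat.eq_zero_or_pos u with rfl | h
    · rw [hu] at hCpos; omega
    · exact h
  have hPodd : Odd P.card := by
    apply odd_card_of_sym hodd P
    · rw [hP, Finset.mem_add]
      exact ⟨0, zero_mem_hull A, 0, mem_fs.mpr H.zero_mem, add_zero 0⟩
    · intro x hx
      rw [hP, Finset.mem_add] at hx ⊢
      obtain ⟨b, hb, g, hg, rfl⟩ := hx
      exact ⟨-b, neg_mem_hull hb, -g, mem_fs.mpr (H.neg_mem (mem_fs.mp hg)), by abel⟩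
  have htodd : Odd t := by
    rw [ht] at hPodd
    exact (Nat.odd_mul.mp hPodd).2
  obtain ⟨k, hkt⟩ := htodd
  rw [ht, hu] at hk
  have hst2 : s * t ≤ u + (s - 1) := by
    have e : h * (s * t) ≤ h * (u + (s - 1)) := by
      calc h * (s * t) = s * (h * t) := by ring
        _ ≤ h * u + (s - 1) * h := hk
        _ = h * (u + (s - 1)) := by ring
    exact Nat.le_of_mul_le_mul_left e hh
  have hks : 2 * s * k + 2 ≤ d := by
    rw [hkt] at hst2
    have e : s * (2 * k + 1) = 2 * s * k + s := by ring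
    omega
  have hkle : k ≤ (d - 2) / (2 * s) := by
    rw [Nat.le_div_iff_mul_le (by omega)]
    have e : k * (2 * s) = 2 * s * k := by ring
    omega
  have hdpos : 0 < d := by omega
  refine ⟨d, ⟨h, by rw [hd]; ring⟩, by omega, ?_⟩
  have e1 : Fintype.card G / d = h := by
    rw [hd]; exact Nat.mul_div_cancel _ hdpos
  rw [e1]
  calc A.card ≤ P.card := by
        apply Finset.card_le_card
        intro x hx
        rw [hP, Finset.mem_add]
        exact ⟨x, subset_hull A hx, 0, mem_fs.mpr H.zero_mem, add_zero x⟩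
    _ = (2 * k + 1) * h := by rw [ht, hkt]; ring
    _ ≤ (2 * ((d - 2) / (2 * s)) + 1) * h := by
        apply Nat.mul_le_mul_right
        omega

theorem msum_univ_of_two {B : Finset G} (h0 : (0 : G) ∈ B) (hcard : Fintype.card G < 2 * B.card)
    {s : ℕ} (hs : 2 ≤ s) : msum s B = univ := by
  have h2 : B + B = univ := by
    apply Finset.eq_univ_of_forall
    intro x
    -- pigeonhole
    by_contra hx
    have hdis : Disjoint B (B.image (fun b => x - b)) := by
      rw [Finset.disjoint_left]
      intro b hb hb2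
      rw [mem_image] at hb2
      obtain ⟨c, hc, hcb⟩ := hb2
      apply hx
      rw [Finset.mem_add]
      exact ⟨b, hb, c, hc, by rw [← hcb]; abel⟩
    have h3 := Finset.card_union_of_disjoint hdis
    have h4 : (B.image (fun b => x - b)).card = B.card :=
      Finset.card_image_of_injective _ (sub_right_injective)
    have h5 := Finset.card_le_univ (B ∪ B.image (fun b => x - b))
    omega
  induction s, hs using Nat.le_induction with
  | base => rw [msum_succ, msum_one]; exact h2
  | succ j _ ih =>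
    rw [msum_succ, ih]
    apply Finset.eq_univ_of_forall
    intro x
    rw [Finset.mem_add]
    exact ⟨x, mem_univ _, 0, h0, add_zero x⟩

theorem upper_even (heven : Even (Fintype.card G)) (hpos : 0 < Fintype.card G) {s : ℕ} (hs : 1 ≤ s)
    (A : Finset G) (hne : msum s (hull A) ≠ univ) :
    ∃ d, d ∣ Fintype.card G ∧ 2 ≤ d ∧
      A.card ≤ (2 * ((d - 2) / (2 * s)) + 1) * (Fintype.card G / d) := by
  obtain ⟨m, hm⟩ := heven
  rcases Nat.lt_or_ge 1 s with hs2 | hs1
  · refine ⟨2, ⟨m, by omega⟩, le_rfl, ?_⟩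
    by_contra hcon
    push Not at hcon
    apply hne
    apply msum_univ_of_two (zero_mem_hull A) _ hs2
    have h1 := Finset.card_le_card (subset_hull A)
    have h2 : Fintype.card G / 2 = m := by omega
    simp only [Nat.sub_self, Nat.zero_div, Nat.mul_zero, Nat.zero_add, Nat.one_mul] at hcon
    omega
  · have hs' : s = 1 := by omega
    subst hs'
    refine ⟨Fintype.card G, dvd_rfl, by omega, ?_⟩
    rw [msum_one] at hne
    have h1 : (hull A).card < Fintype.card G := by
      rw [← Finset.card_univ]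
      apply Finset.card_lt_card
      rw [Finset.ssubset_univ_iff]
      exact hne
    have h2 := Finset.card_le_card (subset_hull A)
    rw [Nat.div_self hpos]
    omega

theorem upper_main (G : Type*) [AddCommGroup G] [Fintype G] [DecidableEq G] {s : ℕ} (hs : 1 ≤ s)
    (A : Finset G) (hne : signedUpTo A s ≠ Set.univ) :
    ∃ d, d ∣ Fintype.card G ∧ 2 ≤ d ∧
      A.card ≤ (2 * ((d - 2) / (2 * s)) + 1) * (Fintype.card G / d) := by
  have h : msum s (hull A) ≠ univ := fun h => hne ((signedUpTo_eq_univ A s).mpr h)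
  rcases Nat.even_or_odd (Fintype.card G) with he | ho
  · exact upper_even he Fintype.card_pos hs A h
  · exact upper_odd ho hs A h

end kneser

section lower

variable {n : ℕ} [NeZero n]

/-- A union of `2k+1` consecutive cosets of the subgroup of order `n/d`. -/
def cosets (n d k : ℕ) : Finset (ZMod n) :=
  (Finset.range (2 * k + 1) ×ˢ Finset.range (n / d)).image
    (fun p => ((((p.1 : ℤ) - (k : ℤ)) + (d : ℤ) * (p.2 : ℤ) : ℤ) : ZMod n))

theorem card_cosets {d k : ℕ} (hd : d ∣ n) (hk : 2 * k + 1 ≤ d) :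
    (cosets n d k).card = (2 * k + 1) * (n / d) := by
  have hn : 0 < n := Nat.pos_of_ne_zero (NeZero.ne n)
  have hd0 : 0 < d := Nat.pos_of_dvd_of_pos hd hn
  unfold cosets
  rw [Finset.card_image_of_injOn, Finset.card_product, Finset.card_range, Finset.card_range]
  rintro ⟨i, j⟩ hij ⟨i', j'⟩ hij' heq
  simp only [coe_product, Set.mem_prod, mem_coe, mem_range] at hij hij'
  simp only at heq
  rw [ZMod.intCast_eq_intCast_iff] at heq
  obtain ⟨m, hm⟩ := hd
  have hnd : n / d = m := by rw [hm]; exact Nat.mul_div_cancel_left _ hd0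
  rw [hnd] at hij hij'
  have h1 := heq.dvd
  have hdz : (0 : ℤ) < d := by exact_mod_cast hd0
  have hmz : ((n : ℕ) : ℤ) = (d : ℤ) * (m : ℤ) := by rw [hm]; push_cast; ring
  have h2 : (d : ℤ) ∣ ((i' : ℤ) - i) := by
    have h3 : (d : ℤ) ∣ (n : ℤ) := ⟨m, hmz⟩
    have h4 := h3.trans h1
    have h5 : (d : ℤ) ∣ (d : ℤ) * ((j' : ℤ) - j) := Dvd.intro _ rfl
    have h6 := dvd_sub h4 h5
    have e : ((i' : ℤ) - (k : ℤ) + (d : ℤ) * (j' : ℤ) - ((i : ℤ) - (k : ℤ) + (d : ℤ) * (j : ℤ)))
      - (d : ℤ) * ((j' : ℤ) - j) = (i' : ℤ) - i := by ring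
    rwa [e] at h6
  have h7 : (i' : ℤ) - i = 0 := by
    apply Int.eq_zero_of_abs_lt_dvd h2
    rw [abs_lt]
    constructor <;> omega
  have h8 : i = i' := by omega
  subst h8
  have h9 : (n : ℤ) ∣ (d : ℤ) * ((j' : ℤ) - j) := by
    have e : ((i : ℤ) - (k : ℤ) + (d : ℤ) * (j' : ℤ) - ((i : ℤ) - (k : ℤ) + (d : ℤ) * (j : ℤ)))
      = (d : ℤ) * ((j' : ℤ) - j) := by ring
    rwa [e] at h1
  rw [hmz] at h9
  have h10 : (m : ℤ) ∣ (j' : ℤ) - j := Int.dvd_of_mul_dvd_mul_left (by omega) h9
  have h11 : (j' : ℤ) - j = 0 := by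
    apply Int.eq_zero_of_abs_lt_dvd h10
    rw [abs_lt]
    constructor <;> omega
  have h12 : j = j' := by omega
  rw [h12]

theorem mem_cosets {d k : ℕ} {x : ZMod n} (hx : x ∈ cosets n d k) (hd : d ∣ n) :
    ∃ w : ℤ, |w| ≤ k ∧ ZMod.castHom hd (ZMod d) x = (w : ZMod d) := by
  unfold cosets at hx
  rw [mem_image] at hx
  obtain ⟨⟨i, j⟩, hij, rfl⟩ := hx
  rw [mem_product, mem_range, mem_range] at hij
  refine ⟨(i : ℤ) - k, ?_, ?_⟩
  · rw [abs_le]
    have := hij.1
    simp only at this
    constructor <;> omega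
  · rw [map_intCast]
    push_cast
    simp

theorem cosets_not_univ {d k s : ℕ} (hd : d ∣ n) (hk : 2 * s * k + 2 ≤ d) :
    signedUpTo (cosets n d k) s ≠ Set.univ := by
  intro huniv
  have hx : (((s * k + 1 : ℕ) : ℤ) : ZMod n) ∈ signedUpTo (cosets n d k) s := by
    rw [huniv]; trivial
  rw [mem_signedUpTo] at hx
  obtain ⟨c, h1, h2⟩ := hx
  have hw : ∀ x : ZMod n, ∃ w : ℤ, x ∈ cosets n d k →
      (|w| ≤ k ∧ ZMod.castHom hd (ZMod d) x = (w : ZMod d)) := by
    intro x
    by_cases hx : x ∈ cosets n d k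
    · obtain ⟨w, hw⟩ := mem_cosets hx hd
      exact ⟨w, fun _ => hw⟩
    · exact ⟨0, fun h => absurd h hx⟩
  choose w hw using hw
  have h3 := congrArg (ZMod.castHom hd (ZMod d)) h2
  rw [map_sum, map_intCast] at h3
  have h4 : ∑ x ∈ cosets n d k, ZMod.castHom hd (ZMod d) (c x • x)
      = ((∑ x ∈ cosets n d k, c x * w x : ℤ) : ZMod d) := by
    rw [Int.cast_sum]
    apply Finset.sum_congr rfl
    intro x hx
    rw [map_zsmul, (hw x hx).2, zsmul_eq_mul, Int.cast_mul]
  rw [h4, ZMod.intCast_eq_intCast_iff] at h3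
  have h5 := h3.dvd
  have h6 : |∑ x ∈ cosets n d k, c x * w x| ≤ (s : ℤ) * k := by
    calc |∑ x ∈ cosets n d k, c x * w x| ≤ ∑ x ∈ cosets n d k, |c x * w x| :=
          Finset.abs_sum_le_sum_abs _ _
      _ ≤ ∑ x ∈ cosets n d k, ((c x).natAbs : ℤ) * k := by
          apply Finset.sum_le_sum
          intro x hx
          rw [abs_mul, Int.natCast_natAbs]
          exact mul_le_mul_of_nonneg_left (hw x hx).1 (abs_nonneg _)
      _ = ((∑ x ∈ cosets n d k, (c x).natAbs : ℕ) : ℤ) * k := by
          rw [← Finset.sum_mul]; push_cast; rfl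
      _ ≤ (s : ℤ) * k := by
          apply mul_le_mul_of_nonneg_right _ (by positivity)
          exact_mod_cast h1
  rw [abs_le] at h6
  have h7 : ((s * k + 1 : ℕ) : ℤ) - ∑ x ∈ cosets n d k, c x * w x = 0 := by
    apply Int.eq_zero_of_abs_lt_dvd h5
    rw [abs_lt]
    have hk' : (2 * s * k + 2 : ℤ) ≤ d := by exact_mod_cast hk
    have e : (2 * (s : ℤ) * k) = 2 * (s * k) := by ring
    push_cast
    constructor
    · linarith [h6.1, h6.2]
    · linarith [h6.1, h6.2]
  push_cast at h7
  linarith [h6.1, h6.2]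

end lower

section vals

/-- value attached to a divisor `d` -/
def val (n s d : ℕ) : ℤ := (2 * (((d : ℤ) - 2) / (2 * (s : ℤ))) + 1) * ((n : ℤ) / (d : ℤ))

theorem vPM_eq (n s : ℕ) : vPM n s = sSup ((fun d => val n s d) '' (n.divisors : Set ℕ)) := by
  unfold vPM
  congr 1
  ext k
  simp only [Set.mem_ofPred_eq, Set.mem_image, mem_coe, val]
  constructor
  · rintro ⟨d, h1, h2⟩; exact ⟨d, h1, h2.symm⟩
  · rintro ⟨d, h1, h2⟩; exact ⟨d, h1, h2.symm⟩

theorem bdd (n s : ℕ) : BddAbove ((fun d => val n s d) '' (n.divisors : Set ℕ)) :=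
  ((Finset.finite_toSet _).image _).bddAbove

theorem val_le_vPM {n s d : ℕ} (hn : 0 < n) (hd : d ∣ n) : val n s d ≤ vPM n s := by
  rw [vPM_eq]
  apply le_csSup (bdd n s)
  exact ⟨d, by rw [mem_coe, Nat.mem_divisors]; exact ⟨hd, by omega⟩, rfl⟩

theorem exists_vPM {n : ℕ} (s : ℕ) (hn : 0 < n) : ∃ d, d ∣ n ∧ vPM n s = val n s d := by
  have hne : ((fun d => val n s d) '' (n.divisors : Set ℕ)).Nonempty :=
    ⟨_, n, by rw [mem_coe, Nat.mem_divisors]; exact ⟨dvd_rfl, by omega⟩, rfl⟩
  have h := Int.csSup_mem hne (bdd n s)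
  rw [← vPM_eq] at h
  obtain ⟨d, hd, he⟩ := h
  rw [mem_coe, Nat.mem_divisors] at hd
  exact ⟨d, hd.1, he.symm⟩

theorem val_cast {n s d : ℕ} (hd2 : 2 ≤ d) :
    val n s d = (((2 * ((d - 2) / (2 * s)) + 1) * (n / d) : ℕ) : ℤ) := by
  unfold val
  push_cast [Nat.cast_sub hd2]
  rfl

theorem val_one {n s : ℕ} (hs : 0 < s) : val n s 1 = -n := by
  unfold val
  have h : ((1 : ℕ) : ℤ) - 2 = -1 := by norm_num
  rw [h]
  have h2 : (-1 : ℤ) / (2 * (s : ℤ)) = -1 := by
    apply le_antisymm
    · have := Int.ediv_neg_of_neg_of_pos (a := -1) (b := 2 * (s : ℤ)) (by norm_num) (by omega)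
      omega
    · rw [Int.le_ediv_iff_mul_le (by omega)]
      omega
  rw [h2]
  push_cast
  simp

end vals

section main

/-- any `A` that does not span has at most `v±(n,s)` elements -/
theorem card_le_of_not_univ {n s : ℕ} (hn : 0 < n) (hs : 0 < s) (A : Finset (ZMod n))
    (hne : signedUpTo A s ≠ Set.univ) : (A.card : ℤ) ≤ vPM n s := by
  haveI : NeZero n := ⟨by omega⟩
  obtain ⟨d, hd, hd2, hle⟩ := upper_main (ZMod n) hs A hne
  rw [ZMod.card] at hd hle
  refine le_trans ?_ (val_le_vPM (s := s) hn hd)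
  rw [val_cast hd2]
  exact_mod_cast hle

/-- unless `v±(n,s)` is negative, some set of `v±(n,s)` elements does not span -/
theorem exists_not_univ {n s : ℕ} (hn : 0 < n) (hs : 0 < s) (hv : 0 ≤ vPM n s) :
    ∃ A : Finset (ZMod n), (A.card : ℤ) = vPM n s ∧ signedUpTo A s ≠ Set.univ := by
  haveI : NeZero n := ⟨by omega⟩
  obtain ⟨d, hd, he⟩ := exists_vPM s hn
  have hd0 : 0 < d := Nat.pos_of_dvd_of_pos hd hn
  rcases Nat.lt_or_ge d 2 with h1 | h2
  · have hd1 : d = 1 := by omega
    rw [he, hd1, val_one hs] at hv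
    omega
  · set k := (d - 2) / (2 * s) with hk
    have hk2 : 2 * s * k ≤ d - 2 := by
      rw [hk]; exact Nat.mul_div_le _ _
    have hk3 : 2 * k ≤ 2 * s * k := by
      calc 2 * k = 2 * 1 * k := by ring
        _ ≤ 2 * s * k := Nat.mul_le_mul_right _ (Nat.mul_le_mul_left _ hs)
    refine ⟨cosets n d k, ?_, cosets_not_univ hd (by omega)⟩
    rw [card_cosets hd (by omega), he, val_cast h2]

theorem neg_one_le_vPM {n s : ℕ} (hn : 0 < n) (hs : 0 < s) : -1 ≤ vPM n s := by
  have h1 : (1 : ℕ) ∣ n := one_dvd n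
  rcases Nat.lt_or_ge n 2 with h | h
  · have : n = 1 := by omega
    subst this
    have := val_le_vPM (s := s) Nat.one_pos h1
    rw [val_one hs] at this
    simpa using this
  · have := val_le_vPM (s := s) hn (dvd_refl n)
    rw [val_cast h] at this
    omega

end main

end Pool.Agent.V11178.SignedCrit
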